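import Mathlib

set_option autoImplicit false

namespace Pool.Agent.Lib.P5aaf1b

/-- choice of the number of comparison steps -/
theorem exists_j {n r D t Q m : ℕ} (hn : 2 ≤ n) (hr : 1 ≤ r) (ht : 1 ≤ t) (hD0 : 1 ≤ D)
    (hD : n * D < n * r * t + r) (hm1 : r * m ≤ Q + r - 1) (hm2 : Q ≤ r * m)
    (hQ : n * r * D + 2 * n * n * r * (r * t) + r * D < Q) :
    ∃ j ≤ m, (m - j) * D < Q * t ∧ m * D + n * r * t < Q * (t + 1) ∧
      (j = 0 ∨ (m - (j - 1)) * D + j * (n * r * t) < Q * (t + 1)) := by
  obtain ⟨T, hT⟩ : ∃ T, T = r * t := ⟨_, rfl⟩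
  have hT1 : 1 ≤ T := by rw [hT]; exact Nat.mul_pos hr ht
  have hnT : n * r * t = n * T := by rw [hT]; ring
  rw [hnT] at hD ⊢
  rw [← hT] at hQ
  have hrD : 1 * D ≤ r * D := Nat.mul_le_mul_right _ hr
  have hmD : r * m * D ≤ Q * D + (r - 1) * D := by
    rw [← add_mul]
    exact Nat.mul_le_mul_right _ (by omega)
  have hr1D : (r - 1) * D ≤ r * D := Nat.mul_le_mul_right _ (by omega)
  -- (c)
  have hc : m * D + n * T < Q * (t + 1) := by
    have h1 : (n * r) * (m * D + n * T) < (n * r) * (Q * (t + 1)) := by
      have e1 : (n * r) * (m * D + n * T) = n * (r * m * D) + n * n * r * T := by ring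
      have e2 : (n * r) * (Q * (t + 1)) = Q * (n * T) + n * r * Q := by rw [hT]; ring
      have h2 : n * (r * m * D) ≤ n * (Q * D + (r - 1) * D) := Nat.mul_le_mul_left _ hmD
      have h3 : n * (Q * D + (r - 1) * D) = Q * (n * D) + n * ((r - 1) * D) := by ring
      have h4 : Q * (n * D + 1) ≤ Q * (n * T + r) := Nat.mul_le_mul_left _ hD
      have h5 : Q * (n * D + 1) = Q * (n * D) + Q := by ring
      have h6 : Q * (n * T + r) = Q * (n * T) + 1 * (r * Q) := by ring
      have h7 : 1 * (r * Q) ≤ n * (r * Q) := Nat.mul_le_mul_right _ (by omega)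
      have h8 : n * (r * Q) = n * r * Q := by ring
      have h9 : n * ((r - 1) * D) ≤ n * (r * D) := Nat.mul_le_mul_left _ hr1D
      have h10 : n * (r * D) = n * r * D := by ring
      have h11 : 2 * n * n * r * T = n * n * r * T + n * n * r * T := by ring
      omega
    exact Nat.lt_of_mul_lt_mul_left h1
  rcases Nat.lt_or_ge D T with hDT | hDT
  · refine ⟨0, Nat.zero_le _, ?_, hc, Or.inl rfl⟩
    have h1 : r * ((m - 0) * D) < r * (Q * t) := by
      have e1 : r * ((m - 0) * D) = r * m * D := by rw [Nat.sub_zero]; ring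
      have e2 : r * (Q * t) = Q * T := by rw [hT]; ring
      have h2 : Q * (D + 1) ≤ Q * T := Nat.mul_le_mul_left _ hDT
      have h3 : Q * (D + 1) = Q * D + Q := by ring
      omega
    exact Nat.lt_of_mul_lt_mul_left h1
  · obtain ⟨Δ, hΔ⟩ := Nat.exists_eq_add_of_le hDT
    have hnΔ : n * Δ + 1 ≤ r := by
      have : n * D = n * T + n * Δ := by rw [hΔ]; ring
      omega
    have hrD0 : 0 < r * D := Nat.mul_pos hr hD0
    set x := Q * Δ / (r * D) with hx
    have hx1 : r * D * x ≤ Q * Δ := Nat.mul_div_le _ _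
    have hx2 : Q * Δ < r * D * x + r * D := by
      have := Nat.lt_mul_div_succ (Q * Δ) hrD0
      rw [← hx, mul_add, mul_one] at this
      exact this
    clear_value x
    have hQD : Q * D = Q * T + Q * Δ := by rw [hΔ]; ring
    have hQT : Q * 1 ≤ Q * T := Nat.mul_le_mul_left _ hT1
    have hxm : x + 2 ≤ m := by
      by_contra hlt
      have h1 : m ≤ x + 1 := by omega
      have h2 : r * m * D ≤ r * D * x + r * D := by
        calc r * m * D = (r * D) * m := by ring
          _ ≤ (r * D) * (x + 1) := Nat.mul_le_mul_left _ h1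
          _ = r * D * x + r * D := by ring
      have h3 : Q * D ≤ r * m * D := Nat.mul_le_mul_right _ hm2
      omega
    refine ⟨x + 2, hxm, ?_, hc, Or.inr ?_⟩
    · have h1 : r * ((m - (x + 2)) * D) < r * (Q * t) := by
        have e2 : r * (Q * t) = Q * T := by rw [hT]; ring
        have e1 : r * ((m - (x + 2)) * D) + (r * D * x + 2 * (r * D)) = r * m * D := by
          obtain ⟨y, hy⟩ := Nat.exists_eq_add_of_le hxm
          have : m - (x + 2) = y := by omega
          rw [this, hy]
          ring
        omega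
      exact Nat.lt_of_mul_lt_mul_left h1
    · have hb : r * ((m - (x + 2 - 1)) * D) < Q * T + (r - 1) * D + 1 := by
        have e1 : r * ((m - (x + 2 - 1)) * D) + (r * D * x + r * D) = r * m * D := by
          obtain ⟨y, hy⟩ := Nat.exists_eq_add_of_le hxm
          have : m - (x + 2 - 1) = y + 1 := by omega
          rw [this, hy]
          ring
        omega
      have hj : r * ((x + 2) * (n * T)) + (r - 1) * D + 1 ≤ r * Q := by
        have h1 : D * (r * ((x + 2) * (n * T)) + (r - 1) * D + 1) ≤ D * (r * Q) := by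
          have e1 : D * (r * ((x + 2) * (n * T)) + (r - 1) * D + 1) =
              (r * D * x) * (n * T) + D * (2 * n * r * T + (r - 1) * D + 1) := by ring
          have h2 : (r * D * x) * (n * T) ≤ (Q * Δ) * (n * D) :=
            Nat.mul_le_mul hx1 (Nat.mul_le_mul_left _ hDT)
          have h3 : (Q * Δ) * (n * D) = D * (Q * (n * Δ)) := by ring
          have h4 : D * (Q * (n * Δ) + (2 * n * r * T + (r - 1) * D + 1)) ≤ D * (r * Q) := by
            apply Nat.mul_le_mul_left
            have h5 : Q * (n * Δ + 1) ≤ Q * r := Nat.mul_le_mul_left _ hnΔ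
            have h6 : Q * (n * Δ + 1) = Q * (n * Δ) + Q := by ring
            have h7 : Q * r = r * Q := by ring
            have h8 : 2 * n * r * T ≤ 2 * n * n * r * T := by
              calc 2 * n * r * T = (2 * n * r * T) * 1 := by ring
                _ ≤ (2 * n * r * T) * n := Nat.mul_le_mul_left _ (by omega)
                _ = 2 * n * n * r * T := by ring
            omega
          have h5 : D * (Q * (n * Δ) + (2 * n * r * T + (r - 1) * D + 1)) =
              D * (Q * (n * Δ)) + D * (2 * n * r * T + (r - 1) * D + 1) := by ring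
          omega
        exact Nat.le_of_mul_le_mul_left h1 (by omega)
      have h1 : r * ((m - (x + 2 - 1)) * D + (x + 2) * (n * T)) < r * (Q * (t + 1)) := by
        have e1 : r * ((m - (x + 2 - 1)) * D + (x + 2) * (n * T)) =
            r * ((m - (x + 2 - 1)) * D) + r * ((x + 2) * (n * T)) := by ring
        have e2 : r * (Q * (t + 1)) = Q * T + r * Q := by rw [hT]; ring
        omega
      exact Nat.lt_of_mul_lt_mul_left h1

end Pool.Agent.Lib.P5aaf1b
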