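import Mathlib
import Pool.Agent.Lib.Chud.Cmp

set_option autoImplicit false

namespace Pool.Agent.Lib.P5aaf1b

open MvPolynomial Pool.Agent.Lib.Chud

section Frob

variable {σ : Type*} {k : Type*} [Field k] (p : ℕ) [Fact p.Prime] [CharP k p]
  [PerfectRing k p]

/-- the `p^e`-th root on a perfect field -/
noncomputable def rt (k : Type*) [Field k] (p : ℕ) [Fact p.Prime] [CharP k p]
    [PerfectRing k p] (e : ℕ) : k →+* k :=
  ((iterateFrobeniusEquiv k p e).symm : k ≃+* k)

theorem rt_pow (e : ℕ) (c : k) : (rt k p e c) ^ p ^ e = c := by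
  have := (iterateFrobeniusEquiv k p e).apply_symm_apply c
  rwa [iterateFrobeniusEquiv_def] at this

theorem rt_pow' (e : ℕ) (c : k) : rt k p e (c ^ p ^ e) = c := by
  have := (iterateFrobeniusEquiv k p e).symm_apply_apply c
  rwa [iterateFrobeniusEquiv_def] at this

omit [PerfectRing k p] in
theorem pow_eq_expand (e : ℕ) (y : MvPolynomial σ k) :
    y ^ p ^ e = expand (p ^ e) (map (iterateFrobenius k p e) y) := by
  induction y using MvPolynomial.induction_on with
  | C a => rw [map_C, expand_C, iterateFrobenius_def, map_pow]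
  | add f g hf hg => rw [add_pow_char_pow, hf, hg, map_add, map_add]
  | mul_X f i hf => rw [mul_pow, hf, map_mul, map_mul, map_X, expand_X]

theorem cmp_mul_expand {q : ℕ} (hq : 0 < q) {a : σ →₀ ℕ} (ha : ∀ i, a i < q)
    (h G : MvPolynomial σ k) : cmp q a (h * expand q G) = cmp q a h * G := by
  classical
  ext δ
  rw [coeff_cmp ha]
  conv_lhs => rw [cmp_sum hq h, Finset.sum_mul]
  rw [coeff_sum]
  have hbox : ∀ b ∈ h.support.image (rmd q), ∀ i, b i < q := by
    intro b hb i
    rw [Finset.mem_image] at hb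
    obtain ⟨c, _, rfl⟩ := hb
    exact rmd_lt hq c i
  have h1 : ∀ b ∈ h.support.image (rmd q),
      coeff (a + q • δ) (monomial b 1 * expand q (cmp q b h) * expand q G) =
      if b = a then coeff δ (cmp q a h * G) else 0 := by
    intro b hb
    rw [mul_assoc, ← map_mul, coeff_mul_expand hq
      (fun u hu i => coeff_monomial_box (hbox b hb) u hu i) ha, coeff_monomial]
    by_cases hba : b = a
    · subst hba; simp
    · rw [if_neg hba, if_neg hba, zero_mul]
  rw [Finset.sum_congr rfl h1, Finset.sum_ite_eq']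
  split_ifs with hmem
  · rfl
  · have h2 : cmp q a h = 0 := by
      apply cmp_eq_zero ha
      intro γ hγ hne
      apply hmem
      rw [Finset.mem_image]
      exact ⟨γ, hγ, hne⟩
    rw [h2, zero_mul, coeff_zero]

/-- component `g_a` in `f = ∑ x^a g_a^q`, `q = p^e` -/
noncomputable def gam (e : ℕ) (a : σ →₀ ℕ) (f : MvPolynomial σ k) : MvPolynomial σ k :=
  map (rt k p e) (cmp (p ^ e) a f)

theorem q_pos (e : ℕ) : 0 < p ^ e := pow_pos (Fact.out (p := p.Prime)).pos _

theorem coeff_gam {e : ℕ} {a : σ →₀ ℕ} (ha : ∀ i, a i < p ^ e) (f : MvPolynomial σ k)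
    (δ : σ →₀ ℕ) : coeff δ (gam p e a f) = rt k p e (coeff (a + (p ^ e) • δ) f) := by
  rw [gam, coeff_map, coeff_cmp ha]

theorem gam_add {e : ℕ} {a : σ →₀ ℕ} (ha : ∀ i, a i < p ^ e) (f g : MvPolynomial σ k) :
    gam p e a (f + g) = gam p e a f + gam p e a g := by
  ext δ
  rw [coeff_add, coeff_gam p ha, coeff_gam p ha, coeff_gam p ha, coeff_add, map_add]

theorem gam_zero {e : ℕ} {a : σ →₀ ℕ} (ha : ∀ i, a i < p ^ e) :
    gam p e a (0 : MvPolynomial σ k) = 0 := by
  ext δ
  rw [coeff_gam p ha, coeff_zero, coeff_zero, map_zero]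

theorem gam_sum {e : ℕ} {a : σ →₀ ℕ} (ha : ∀ i, a i < p ^ e) {ι : Type*} (s : Finset ι)
    (f : ι → MvPolynomial σ k) :
    gam p e a (∑ i ∈ s, f i) = ∑ i ∈ s, gam p e a (f i) := by
  classical
  induction s using Finset.induction_on with
  | empty => rw [Finset.sum_empty, Finset.sum_empty, gam_zero p ha]
  | insert b s hb ih => rw [Finset.sum_insert hb, Finset.sum_insert hb, gam_add p ha, ih]

theorem gam_mul_pow {e : ℕ} {a : σ →₀ ℕ} (ha : ∀ i, a i < p ^ e) (h y : MvPolynomial σ k) :
    gam p e a (h * y ^ p ^ e) = y * gam p e a h := by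
  rw [pow_eq_expand, gam, cmp_mul_expand (q_pos p e) ha, map_mul, gam, mul_comm]
  congr 1
  rw [MvPolynomial.map_map]
  have : (rt k p e).comp (iterateFrobenius k p e) = RingHom.id k := by
    ext c
    rw [RingHom.comp_apply, iterateFrobenius_def, rt_pow', RingHom.id_apply]
  rw [this, MvPolynomial.map_id]

theorem gam_pow_eq {e : ℕ} (a : σ →₀ ℕ) (f : MvPolynomial σ k) :
    (gam p e a f) ^ p ^ e = expand (p ^ e) (cmp (p ^ e) a f) := by
  rw [pow_eq_expand, gam, MvPolynomial.map_map]
  have : (iterateFrobenius k p e).comp (rt k p e) = RingHom.id k := by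
    ext c
    rw [RingHom.comp_apply, iterateFrobenius_def, rt_pow, RingHom.id_apply]
  rw [this, MvPolynomial.map_id]

/-- the box of exponents `< q` -/
noncomputable def box (σ : Type*) [Fintype σ] (q : ℕ) : Finset (σ →₀ ℕ) := by
  classical
  exact (Fintype.piFinset (fun _ : σ => Finset.range q)).map Finsupp.equivFunOnFinite.symm.toEmbedding

theorem mem_box [Fintype σ] {q : ℕ} {a : σ →₀ ℕ} : a ∈ box σ q ↔ ∀ i, a i < q := by
  classical
  unfold box
  rw [Finset.mem_map]
  constructor
  · rintro ⟨b, hb, rfl⟩ i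
    rw [Fintype.mem_piFinset] at hb
    exact Finset.mem_range.1 (hb i)
  · intro h
    refine ⟨fun i => a i, ?_, ?_⟩
    · rw [Fintype.mem_piFinset]
      exact fun i => Finset.mem_range.2 (h i)
    · ext i; rfl

theorem sum_box [Fintype σ] (e : ℕ) (f : MvPolynomial σ k) :
    f = ∑ a ∈ box σ (p ^ e), monomial a 1 * (gam p e a f) ^ p ^ e := by
  classical
  conv_lhs => rw [cmp_sum (q_pos p e) f]
  have h1 : f.support.image (rmd (p ^ e)) ⊆ box σ (p ^ e) := by
    intro a ha
    rw [Finset.mem_image] at ha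
    obtain ⟨c, _, rfl⟩ := ha
    rw [mem_box]
    exact rmd_lt (q_pos p e) c
  have h2 := Finset.sum_subset h1 (f := fun a => monomial a 1 * (gam p e a f) ^ p ^ e) (by
    intro a _ ha
    rw [gam_pow_eq]
    have h2 : cmp (p ^ e) a f = 0 := by
      unfold Chud.cmp
      apply Finset.sum_eq_zero
      intro γ hγ
      rw [Finset.mem_filter] at hγ
      exfalso
      apply ha
      rw [Finset.mem_image]
      exact ⟨γ, hγ⟩
    rw [h2, map_zero, mul_zero])
  rw [← h2]
  apply Finset.sum_congr rfl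
  intro a _
  rw [gam_pow_eq]

/-- the Frobenius power `J^[q]`, `q = p^e` -/
noncomputable def frob (e : ℕ) (J : Ideal (MvPolynomial σ k)) : Ideal (MvPolynomial σ k) :=
  Ideal.span ((fun y => y ^ p ^ e) '' (J : Set (MvPolynomial σ k)))

omit [Fact p.Prime] [CharP k p] [PerfectRing k p] in
theorem pow_mem_frob (e : ℕ) {J : Ideal (MvPolynomial σ k)} {y : MvPolynomial σ k} (hy : y ∈ J) :
    y ^ p ^ e ∈ frob p e J := Ideal.subset_span ⟨y, hy, rfl⟩

theorem mem_frob [Fintype σ] {e : ℕ} {J : Ideal (MvPolynomial σ k)} {f : MvPolynomial σ k} :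
    f ∈ frob p e J ↔ ∀ a : σ →₀ ℕ, (∀ i, a i < p ^ e) → gam p e a f ∈ J := by
  constructor
  · intro hf a ha
    have key : ∀ h : MvPolynomial σ k, gam p e a (h * f) ∈ J := by
      unfold frob at hf
      induction hf using Submodule.span_induction with
      | mem x hx =>
        obtain ⟨y, hy, rfl⟩ := hx
        intro h
        simp only
        rw [gam_mul_pow p ha]
        exact Ideal.mul_mem_right _ _ hy
      | zero =>
        intro h
        rw [mul_zero, gam_zero p ha]
        exact Ideal.zero_mem _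
      | add x y _ _ hx hy =>
        intro h
        rw [mul_add, gam_add p ha]
        exact Ideal.add_mem _ (hx h) (hy h)
      | smul c x _ hx =>
        intro h
        rw [smul_eq_mul, ← mul_assoc]
        exact hx (h * c)
    have := key 1
    rwa [one_mul] at this
  · intro h
    rw [sum_box p e f]
    apply Ideal.sum_mem
    intro a ha
    exact Ideal.mul_mem_left _ _ (pow_mem_frob p e (h a (mem_box.1 ha)))

omit [PerfectRing k p] in
theorem pow_mem_frob_of_mem {e j : ℕ} {J : Ideal (MvPolynomial σ k)} {f : MvPolynomial σ k}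
    (hf : f ∈ frob p e J) : f ^ p ^ j ∈ frob p (e + j) J := by
  unfold frob at hf
  induction hf using Submodule.span_induction with
  | mem x hx =>
    obtain ⟨y, hy, rfl⟩ := hx
    simp only
    rw [← pow_mul, ← pow_add]
    exact pow_mem_frob p _ hy
  | zero =>
    rw [zero_pow (q_pos p j).ne']
    exact Ideal.zero_mem _
  | add x y _ _ hx hy =>
    rw [add_pow_char_pow]
    exact Ideal.add_mem _ hx hy
  | smul c x _ hx =>
    rw [smul_eq_mul, mul_pow]
    exact Ideal.mul_mem_left _ _ hx

theorem gam_isHomogeneous {e D : ℕ} {a : σ →₀ ℕ} (ha : ∀ i, a i < p ^ e)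
    {f : MvPolynomial σ k} (hf : f.IsHomogeneous D) {t : ℕ} (ht : a.degree + p ^ e * t = D) :
    (gam p e a f).IsHomogeneous t := by
  intro δ hδ
  rw [coeff_gam p ha] at hδ
  have h1 : coeff (a + (p ^ e) • δ) f ≠ 0 := by
    intro h
    rw [h, map_zero] at hδ
    exact hδ rfl
  have h2 : (a + (p ^ e) • δ).degree = D := by
    by_contra hne
    exact h1 (hf.coeff_eq_zero hne)
  rw [map_add, map_nsmul, smul_eq_mul] at h2
  have h3 : p ^ e * δ.degree = p ^ e * t := by omega
  have h4 := Nat.eq_of_mul_eq_mul_left (q_pos p e) h3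
  rw [← h4, Finsupp.degree_eq_weight_one]
  rfl

theorem gam_eq_zero {e D : ℕ} {a : σ →₀ ℕ} (ha : ∀ i, a i < p ^ e)
    {f : MvPolynomial σ k} (hf : f.IsHomogeneous D) (ht : ∀ t : ℕ, a.degree + p ^ e * t ≠ D) :
    gam p e a f = 0 := by
  ext δ
  rw [coeff_gam p ha, coeff_zero]
  have h1 : coeff (a + (p ^ e) • δ) f = 0 := by
    by_contra h1
    apply ht δ.degree
    have h2 : (a + (p ^ e) • δ).degree = D := by
      by_contra hne
      exact h1 (hf.coeff_eq_zero hne)
    rwa [map_add, map_nsmul, smul_eq_mul] at h2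
  rw [h1, map_zero]

end Frob

end Pool.Agent.Lib.P5aaf1b
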