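import Mathlib
import Pool.Agent.Lib.P5aaf1b.Frob
import Pool.Agent.Lib.P5c592f.Loc

set_option autoImplicit false

namespace Pool.Agent.Lib.P5aaf1b

open MvPolynomial Pool.Agent.Lib.Chud Pool.Agent.Lib.P5c592f

section

variable {k : Type*} [Field k] {n : ℕ}

theorem Iv_le_map {v : Fin (n + 1) → k} (hv : v ≠ 0) : Iv v ≤
    (idealOfVars (Fin n) k).map
      (iota v : MvPolynomial (Fin n) k →+* MvPolynomial (Fin (n + 1)) k) := by
  rw [Iv, Ideal.span_le]
  rintro G ⟨hG1, hG0⟩
  rw [SetLike.mem_coe, eq_eval₂_T hv G,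
    Polynomial.eval₂_eq_sum_range' _ (Nat.lt_succ_of_le (T_natDegree_le hG1 v))]
  apply Ideal.sum_mem
  intro j hj
  rw [Finset.mem_range] at hj
  apply Ideal.mul_mem_right
  simp only [RingHom.comp_apply, RingHom.coe_coe]
  have h1 := rho_isHomogeneous (i := chart v) ((PH_T hG1 v j).1 (by omega))
  obtain rfl | rfl : j = 0 ∨ j = 1 := by omega
  · have h2 := Ideal.mem_map_of_mem
      (iota v : MvPolynomial (Fin n) k →+* MvPolynomial (Fin (n + 1)) k)
      (IsHomogeneous.mem_idealOfVars_pow h1)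
    simpa using h2
  · have h0 : rho k (chart v) ((T v G).coeff 1) = 0 := by
      ext γ
      by_cases hγ : γ.degree = 0
      · have := coeff_phi hG1 v γ (by omega)
        have hγ0 : γ = 0 := (Finsupp.degree_eq_zero_iff γ).1 hγ
        subst hγ0
        rw [coeff_zero]
        have h3 : coeff 0 (phi v G) = 0 := by
          have := constantCoeff_phi v G
          rw [hG0] at this
          exact this
        rw [h3] at this
        simpa using this.symm
      · rw [h1.coeff_eq_zero (by simpa using hγ)]; simp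
    rw [h0, map_zero]
    exact Ideal.zero_mem _

end

section

variable {k : Type*} [Field k] (p : ℕ) [Fact p.Prime] [CharP k p] [PerfectRing k p] {n : ℕ}

theorem vars_pow_le_frob {σ : Type*} [Fintype σ] (e m N : ℕ)
    (h : m = 0 ∨ Fintype.card σ * (p ^ e - 1) + p ^ e * (m - 1) < N) :
    idealOfVars σ k ^ N ≤ frob p e (idealOfVars σ k ^ m) := by
  intro f hf
  rw [mem_frob]
  intro a ha
  rw [mem_pow_idealOfVars_iff'] at hf ⊢
  intro δ hδ
  rcases h with h | h
  · omega
  rw [coeff_gam p ha, hf, map_zero]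
  rw [map_add, map_nsmul, smul_eq_mul]
  have h1 : a.degree ≤ Fintype.card σ * (p ^ e - 1) := by
    rw [Finsupp.degree_eq_sum]
    calc ∑ i, a i ≤ ∑ _i : σ, (p ^ e - 1) := Finset.sum_le_sum (fun i _ => by
          have := ha i; omega)
      _ = Fintype.card σ * (p ^ e - 1) := by simp
  have h2 : p ^ e * δ.degree ≤ p ^ e * (m - 1) := Nat.mul_le_mul_left _ (by omega)
  omega

omit [Fact p.Prime] [CharP k p] [PerfectRing k p] in
theorem map_frob_le {σ τ : Type*} (ψ : MvPolynomial σ k →+* MvPolynomial τ k) (e : ℕ)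
    (J : Ideal (MvPolynomial σ k)) : (frob p e J).map ψ ≤ frob p e (J.map ψ) := by
  unfold frob
  rw [Ideal.map_span, Ideal.span_le]
  rintro _ ⟨_, ⟨y, hy, rfl⟩, rfl⟩
  simp only [map_pow]
  exact Ideal.subset_span ⟨ψ y, Ideal.mem_map_of_mem ψ hy, rfl⟩

omit [Fact p.Prime] [CharP k p] [PerfectRing k p] in
theorem frob_mono {σ : Type*} (e : ℕ) {J J' : Ideal (MvPolynomial σ k)} (h : J ≤ J') :
    frob p e J ≤ frob p e J' := by
  unfold frob
  exact Ideal.span_mono (Set.image_mono h)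

theorem Iv_pow_le_frob {v : Fin (n + 1) → k} (hv : v ≠ 0) (e m N : ℕ)
    (h : m = 0 ∨ n * (p ^ e - 1) + p ^ e * (m - 1) < N) :
    Iv v ^ N ≤ frob p e (Iv v ^ m) := by
  have h1 : Iv v ^ N ≤ (idealOfVars (Fin n) k ^ N).map
      (iota v : MvPolynomial (Fin n) k →+* MvPolynomial (Fin (n + 1)) k) := by
    rw [Ideal.map_pow]
    exact Ideal.pow_right_mono (Iv_le_map hv) N
  refine h1.trans ((Ideal.map_mono (vars_pow_le_frob p e m N (by simpa using h))).trans
    ((map_frob_le p _ e _).trans (frob_mono p e ?_)))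
  rw [Ideal.map_le_iff_le_comap]
  intro u hu
  exact iota_mem_pow hv m u hu

/-- Hochster-Huneke for fat points -/
theorem fat_le_frob {ι : Type*} {v : ι → Fin (n + 1) → k} (hv : ∀ i, v i ≠ 0)
    (μ M : ι → ℕ) (e : ℕ)
    (h : ∀ i, μ i = 0 ∨ n * (p ^ e - 1) + p ^ e * (μ i - 1) < M i) :
    (⨅ i, Iv (v i) ^ M i) ≤ frob p e (⨅ i, Iv (v i) ^ μ i) := by
  intro f hf
  rw [mem_frob]
  intro a ha
  rw [Ideal.mem_iInf] at hf ⊢
  intro i
  have h1 := Iv_pow_le_frob p (hv i) e (μ i) (M i) (h i) (hf i)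
  rw [mem_frob] at h1
  exact h1 a ha

end

end Pool.Agent.Lib.P5aaf1b
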