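import Mathlib
import Pool.Agent.Lib.P5aaf1b.HoHu

set_option autoImplicit false

namespace Pool.Agent.Lib.P5aaf1b

open MvPolynomial Pool.Agent.Lib.Chud Pool.Agent.Lib.P5c592f

section Lam

variable {σ : Type*} {k : Type*} [Field k]

/-- functionals that see only the minimal generators of degree `t` of the ideal `I` -/
structure Lam (I : Ideal (MvPolynomial σ k)) (t : ℕ) where
  f : MvPolynomial σ k →ₗ[k] k
  h1 : ∀ u ∈ I, ∀ i : σ, f (X i * u) = 0
  h2 : ∀ (G : MvPolynomial σ k) (d : ℕ), G.IsHomogeneous d → d ≠ t → f G = 0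

/-- the ideal generated by the forms of degree `< t` in `I` -/
noncomputable def low (I : Ideal (MvPolynomial σ k)) (t : ℕ) : Ideal (MvPolynomial σ k) :=
  Ideal.span {u | u ∈ I ∧ ∃ d < t, u.IsHomogeneous d}

theorem low_le (I : Ideal (MvPolynomial σ k)) (t : ℕ) : low I t ≤ I := by
  rw [low, Ideal.span_le]
  exact fun u hu => hu.1

theorem Lam.mul {I : Ideal (MvPolynomial σ k)} {t : ℕ} (L : Lam I t) {u : MvPolynomial σ k}
    (hu : u ∈ I) (g : MvPolynomial σ k) : L.f (g * u) = constantCoeff g * L.f u := by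
  induction g using MvPolynomial.induction_on with
  | C a =>
    rw [constantCoeff_C, ← smul_eq_C_mul, map_smul, smul_eq_mul]
  | add f g hf hg => rw [add_mul, map_add, hf, hg, map_add, add_mul]
  | mul_X g i _ =>
    rw [mul_assoc, mul_left_comm, L.h1 _ (Ideal.mul_mem_left _ _ hu) i, map_mul]
    simp

theorem Lam.low {I : Ideal (MvPolynomial σ k)} {t : ℕ} (L : Lam I t) {x : MvPolynomial σ k}
    (hx : x ∈ low I t) : L.f x = 0 := by
  unfold P5aaf1b.low at hx
  have key : ∀ h : MvPolynomial σ k, L.f (h * x) = 0 := by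
    induction hx using Submodule.span_induction with
    | mem x hx =>
      obtain ⟨hxI, d, hd, hxd⟩ := hx
      intro h
      rw [L.mul hxI, L.h2 x d hxd (by omega), mul_zero]
    | zero => intro h; rw [mul_zero, map_zero]
    | add x y _ _ hx hy => intro h; rw [mul_add, map_add, hx, hy, add_zero]
    | smul c x _ hx => intro h; rw [smul_eq_mul, ← mul_assoc]; exact hx _
  have := key 1
  rwa [one_mul] at this

theorem exists_Lam {I : Ideal (MvPolynomial σ k)}
    (hI : ∀ u ∈ I, ∀ d, homogeneousComponent d u ∈ I) {t : ℕ} {u : MvPolynomial σ k}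
    (hut : u.IsHomogeneous t) (hu : u ∉ low I t) : ∃ L : Lam I t, L.f u ≠ 0 := by
  classical
  let W : Submodule k (MvPolynomial σ k) :=
    Submodule.span k ({x | ∃ (i : σ) (w : MvPolynomial σ k) (d : ℕ), w ∈ I ∧ w.IsHomogeneous d ∧
      d + 1 = t ∧ x = X i * w} ∪ {x | ∃ d : ℕ, x.IsHomogeneous d ∧ d ≠ t})
  have hW : ∀ x ∈ W, homogeneousComponent t x ∈ low I t := by
    intro x hx
    induction hx using Submodule.span_induction with
    | mem x hx =>
      rcases hx with ⟨i, w, d, hw, hwd, hd, rfl⟩ | ⟨d, hxd, hd⟩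
      · have h1 : (X i * w).IsHomogeneous t := by
          rw [← hd, add_comm]
          exact (isHomogeneous_X _ _).mul hwd
        rw [homogeneousComponent_of_mem h1, if_pos rfl]
        apply Ideal.mul_mem_left
        exact Ideal.subset_span ⟨hw, d, by omega, hwd⟩
      · rw [homogeneousComponent_of_mem hxd, if_neg (Ne.symm hd)]
        exact Ideal.zero_mem _
    | zero => rw [map_zero]; exact Ideal.zero_mem _
    | add x y _ _ hx hy => rw [map_add]; exact Ideal.add_mem _ hx hy
    | smul c x _ hx =>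
      rw [map_smul, smul_eq_C_mul]
      exact Ideal.mul_mem_left _ _ hx
  have huW : u ∉ W := by
    intro h
    apply hu
    have := hW u h
    rwa [homogeneousComponent_of_mem hut, if_pos rfl] at this
  obtain ⟨f, hf, hfW⟩ := Submodule.exists_le_ker_of_notMem huW
  refine ⟨⟨f, ?_, ?_⟩, hf⟩
  · intro w hw i
    have h1 : X i * w = ∑ d ∈ Finset.range (w.totalDegree + 1), X i * homogeneousComponent d w := by
      rw [← Finset.mul_sum, sum_homogeneousComponent]
    rw [h1, map_sum]
    apply Finset.sum_eq_zero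
    intro d _
    have h2 := homogeneousComponent_isHomogeneous d w
    by_cases hd : d + 1 = t
    · exact hfW (Submodule.subset_span (Or.inl ⟨i, _, d, hI w hw d, h2, hd, rfl⟩))
    · apply hfW
      apply Submodule.subset_span
      right
      refine ⟨1 + d, (isHomogeneous_X _ _).mul h2, ?_⟩
      omega
  · intro G d hG hd
    exact hfW (Submodule.subset_span (Or.inr ⟨d, hG, hd⟩))

end Lam

section Phi

variable {σ : Type*} [Fintype σ] {k : Type*} [Field k] (p : ℕ) [Fact p.Prime] [CharP k p]
  [PerfectRing k p]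

/-- the coefficient of a degree `t` generator in an element of `I^[q]` -/
noncomputable def Phi (e : ℕ) (f : MvPolynomial σ k →ₗ[k] k) (G : MvPolynomial σ k) :
    MvPolynomial σ k :=
  ∑ a ∈ box σ (p ^ e), monomial a ((f (gam p e a G)) ^ p ^ e)

theorem coeff_Phi {e : ℕ} {f : MvPolynomial σ k →ₗ[k] k} {G : MvPolynomial σ k}
    {a : σ →₀ ℕ} (ha : ∀ i, a i < p ^ e) :
    coeff a (Phi p e f G) = (f (gam p e a G)) ^ p ^ e := by
  classical
  unfold Phi
  rw [coeff_sum, Finset.sum_eq_single a]
  · rw [coeff_monomial, if_pos rfl]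
  · intro b _ hb
    rw [coeff_monomial, if_neg hb]
  · intro h
    exact absurd (mem_box.2 ha) h

theorem Phi_add (e : ℕ) (f : MvPolynomial σ k →ₗ[k] k) (G H : MvPolynomial σ k) :
    Phi p e f (G + H) = Phi p e f G + Phi p e f H := by
  unfold Phi
  rw [← Finset.sum_add_distrib]
  apply Finset.sum_congr rfl
  intro a ha
  rw [gam_add p (mem_box.1 ha), map_add, add_pow_char_pow, map_add]

theorem Phi_zero (e : ℕ) (f : MvPolynomial σ k →ₗ[k] k) : Phi p e f 0 = 0 := by
  unfold Phi
  apply Finset.sum_eq_zero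
  intro a ha
  rw [gam_zero p (mem_box.1 ha), map_zero, zero_pow (q_pos p e).ne', map_zero]

theorem Phi_mul_pow (e : ℕ) {I : Ideal (MvPolynomial σ k)} {t : ℕ} (L : Lam I t)
    {u : MvPolynomial σ k} (hu : u ∈ I) (h : MvPolynomial σ k) :
    Phi p e L.f (h * u ^ p ^ e) - C ((L.f u) ^ p ^ e) * h ∈ frob p e (idealOfVars σ k) := by
  have h1 : Phi p e L.f (h * u ^ p ^ e) =
      ∑ a ∈ box σ (p ^ e), C ((L.f u) ^ p ^ e) *
        (monomial a 1 * (C (constantCoeff (gam p e a h))) ^ p ^ e) := by
    unfold Phi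
    apply Finset.sum_congr rfl
    intro a ha
    rw [gam_mul_pow p (mem_box.1 ha), mul_comm u, L.mul hu, mul_pow,
      ← map_pow C, mul_comm (monomial a 1), C_mul_monomial, C_mul_monomial, mul_one, mul_comm]
  have h2 : C ((L.f u) ^ p ^ e) * h = ∑ a ∈ box σ (p ^ e), C ((L.f u) ^ p ^ e) *
        (monomial a 1 * (gam p e a h) ^ p ^ e) := by
    rw [← Finset.mul_sum, ← sum_box]
  rw [h1, h2, ← Finset.sum_sub_distrib]
  apply Ideal.sum_mem
  intro a _
  rw [← mul_sub, ← mul_sub, ← sub_pow_char_pow]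
  apply Ideal.mul_mem_left
  apply Ideal.mul_mem_left
  apply pow_mem_frob
  have h3 : C (constantCoeff (gam p e a h)) - gam p e a h ∈ idealOfVars σ k ^ 1 := by
    rw [mem_pow_idealOfVars_iff']
    intro x hx
    have hx0 : x = 0 := (Finsupp.degree_eq_zero_iff x).1 (by omega)
    subst hx0
    rw [coeff_sub, coeff_zero_C]
    exact sub_self _
  rwa [pow_one] at h3

theorem Phi_mul (e : ℕ) {I : Ideal (MvPolynomial σ k)} {t : ℕ} (L : Lam I t)
    {G : MvPolynomial σ k} (hG : G ∈ frob p e I) :
    ∀ H : MvPolynomial σ k,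
      Phi p e L.f (H * G) - H * Phi p e L.f G ∈ frob p e (idealOfVars σ k) := by
  unfold frob at hG
  induction hG using Submodule.span_induction with
  | mem x hx =>
    obtain ⟨u, hu, rfl⟩ := hx
    intro H
    simp only
    have h1 := Phi_mul_pow p e L hu H
    have h2 := Phi_mul_pow p e L hu 1
    rw [one_mul, mul_one] at h2
    have h3 := Ideal.sub_mem _ h1 (Ideal.mul_mem_left _ H h2)
    convert h3 using 1
    ring
  | zero =>
    intro H
    rw [mul_zero, Phi_zero, mul_zero, sub_zero]
    exact Ideal.zero_mem _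
  | add x y _ _ hx hy =>
    intro H
    rw [mul_add, Phi_add, Phi_add]
    have h3 := Ideal.add_mem _ (hx H) (hy H)
    convert h3 using 1
    ring
  | smul c x _ hx =>
    intro H
    rw [smul_eq_mul]
    have h3 := Ideal.sub_mem _ (hx (H * c)) (Ideal.mul_mem_left _ H (hx c))
    convert h3 using 1
    ring_nf

omit [Fintype σ] [Fact p.Prime] [PerfectRing k p] in
theorem pderiv_mul_pow {e : ℕ} (he : 1 ≤ e) (i : σ) (h y : MvPolynomial σ k) :
    pderiv i (h * y ^ p ^ e) = pderiv i h * y ^ p ^ e := by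
  rw [Derivation.leibniz, Derivation.leibniz_pow]
  have h0 : ((p ^ e : ℕ) : MvPolynomial σ k) = 0 := by
    have : ((p : ℕ) : MvPolynomial σ k) = 0 := CharP.cast_eq_zero _ _
    rw [Nat.cast_pow, this, zero_pow (by omega)]
  have h1 : (p ^ e) • y ^ (p ^ e - 1) • (pderiv i) y = 0 := by
    rw [← Nat.cast_smul_eq_nsmul (MvPolynomial σ k), h0, zero_smul]
  rw [h1, smul_zero, zero_add, smul_eq_mul, mul_comm]

omit [Fintype σ] [Fact p.Prime] [PerfectRing k p] in
theorem pderiv_mem_frob {e : ℕ} (he : 1 ≤ e) (i : σ) {J : Ideal (MvPolynomial σ k)}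
    {G : MvPolynomial σ k} (hG : G ∈ frob p e J) : pderiv i G ∈ frob p e J := by
  have key : ∀ H : MvPolynomial σ k, pderiv i (H * G) ∈ frob p e J := by
    unfold frob at hG
    induction hG using Submodule.span_induction with
    | mem x hx =>
      obtain ⟨u, hu, rfl⟩ := hx
      intro H
      simp only
      rw [pderiv_mul_pow p he]
      exact Ideal.mul_mem_left _ _ (pow_mem_frob p e hu)
    | zero => intro H; rw [mul_zero, map_zero]; exact Ideal.zero_mem _
    | add x y _ _ hx hy =>
      intro H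
      rw [mul_add, map_add]
      exact Ideal.add_mem _ (hx H) (hy H)
    | smul c x _ hx =>
      intro H
      rw [smul_eq_mul, ← mul_assoc]
      exact hx _
  have := key 1
  rwa [one_mul] at this

theorem Phi_pderiv {e : ℕ} (he : 1 ≤ e) {I : Ideal (MvPolynomial σ k)} {t : ℕ} (L : Lam I t)
    {G : MvPolynomial σ k} (hG : G ∈ frob p e I) (i : σ) :
    Phi p e L.f (pderiv i G) - pderiv i (Phi p e L.f G) ∈ frob p e (idealOfVars σ k) := by
  have hG' := hG
  unfold frob at hG'
  induction hG' using Submodule.span_induction with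
  | mem x hx =>
    obtain ⟨u, hu, rfl⟩ := hx
    simp only
    have h1 : pderiv i (u ^ p ^ e) = 0 := by
      have := pderiv_mul_pow p he i 1 u
      rw [one_mul] at this
      rw [this]
      simp
    rw [h1, Phi_zero, zero_sub]
    have h2 := Phi_mul_pow p e L hu 1
    have h3 := pderiv_mem_frob p he i h2
    rw [one_mul, mul_one, map_sub, pderiv_C, sub_zero] at h3
    exact (Ideal.neg_mem_iff _).2 h3
  | zero =>
    rw [map_zero, Phi_zero, map_zero, sub_zero]
    exact Ideal.zero_mem _
  | add x y hx' hy' hx hy =>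
    rw [map_add, Phi_add, Phi_add, map_add]
    have h3 := Ideal.add_mem _ (hx hx') (hy hy')
    convert h3 using 1
    ring
  | smul c x hx' hx =>
    rw [smul_eq_mul] at *
    have h4 := Phi_mul p e L hx' (pderiv i c)
    have h5 := Phi_mul p e L (pderiv_mem_frob p he i (show x ∈ frob p e I from hx')) c
    have h6 := Ideal.mul_mem_left _ c (hx hx')
    have h7 := pderiv_mem_frob p he i (Phi_mul p e L hx' c)
    rw [map_sub, Derivation.leibniz, smul_eq_mul, smul_eq_mul] at h7
    rw [Derivation.leibniz, smul_eq_mul, smul_eq_mul, Phi_add]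
    have h8 := Ideal.sub_mem _ (Ideal.add_mem _ (Ideal.add_mem _ h4 h5) h6) h7
    convert h8 using 1
    rw [mul_comm x]
    ring

omit [Fintype σ] in
theorem eq_zero_of_mem_frob_vars [Fintype σ] {e : ℕ} {x : MvPolynomial σ k}
    (hx : x ∈ frob p e (idealOfVars σ k)) {d : ℕ} (hd : x.IsHomogeneous d) (hlt : d < p ^ e) :
    x = 0 := by
  rw [mem_frob] at hx
  ext γ
  rw [coeff_zero]
  by_cases hγ : γ.degree = d
  · have ha : ∀ i, γ i < p ^ e := fun i => by
      have := Finsupp.le_degree i γ
      omega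
    have h1 := hx γ ha
    have h2 : gam p e γ x ∈ idealOfVars σ k ^ 1 := by rwa [pow_one]
    rw [mem_pow_idealOfVars_iff'] at h2
    have h3 := h2 0 (by simp)
    rw [coeff_gam p ha, smul_zero, add_zero] at h3
    exact (map_eq_zero _).1 h3
  · exact hd.coeff_eq_zero hγ

theorem Phi_isHomogeneous {e D D' t : ℕ} {I : Ideal (MvPolynomial σ k)} (L : Lam I t)
    {G : MvPolynomial σ k} (hG : G.IsHomogeneous D) (hD : D' + p ^ e * t = D) :
    (Phi p e L.f G).IsHomogeneous D' := by
  unfold Phi
  apply IsHomogeneous.sum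
  intro a ha
  rw [mem_box] at ha
  by_cases hdeg : a.degree = D'
  · exact isHomogeneous_monomial _ hdeg
  · have h0 : L.f (gam p e a G) = 0 := by
      by_cases ht : ∃ t', a.degree + p ^ e * t' = D
      · obtain ⟨t', ht'⟩ := ht
        apply L.h2 _ t' (gam_isHomogeneous p ha hG ht')
        rintro rfl
        omega
      · push Not at ht
        rw [gam_eq_zero p ha hG ht, map_zero]
    rw [h0, zero_pow (q_pos p e).ne', map_zero]
    exact isHomogeneous_zero _ _ _

theorem mem_frob_low {e D t : ℕ} {I : Ideal (MvPolynomial σ k)}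
    (hI : ∀ u ∈ I, ∀ d, homogeneousComponent d u ∈ I) {G : MvPolynomial σ k}
    (hG : G ∈ frob p e I) (hGD : G.IsHomogeneous D) (hD : D < p ^ e * (t + 1))
    (h : ∀ L : Lam I t, Phi p e L.f G = 0) : G ∈ frob p e (low I t) := by
  rw [mem_frob] at hG ⊢
  intro a ha
  by_cases ht : ∃ t', a.degree + p ^ e * t' = D
  · obtain ⟨t', ht'⟩ := ht
    have h1 := gam_isHomogeneous p ha hGD ht'
    have h2 : t' < t + 1 := by
      by_contra hlt
      have := Nat.mul_le_mul_left (p ^ e) (Nat.le_of_not_lt hlt)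
      omega
    rcases Nat.lt_or_ge t' t with hlt | hge
    · exact Ideal.subset_span ⟨hG a ha, t', hlt, h1⟩
    · obtain rfl : t' = t := by omega
      by_contra hnot
      obtain ⟨L, hL⟩ := exists_Lam hI h1 hnot
      have h3 := coeff_Phi p (f := L.f) (G := G) ha
      rw [h L, coeff_zero] at h3
      exact hL (pow_eq_zero_iff (q_pos p e).ne' |>.1 h3.symm)
  · push Not at ht
    rw [gam_eq_zero p ha hGD ht]
    exact Ideal.zero_mem _

end Phi

end Pool.Agent.Lib.P5aaf1b
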