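import Mathlib
import Pool.Agent.Lib.P5aaf1b.Phi
import Pool.Agent.Lib.Chud.Derive
import Pool.Agent.Lib.P5c592f.Comp

set_option autoImplicit false

namespace Pool.Agent.Lib.P5aaf1b

open MvPolynomial Pool.Agent.Lib.Chud Pool.Agent.Lib.P5c592f

section

variable {σ : Type*} {k : Type*} [Field k]

/-- in a polynomial ring: divisibility from a `p`-th power identity -/
theorem dvd_of_pow_eq {F Φ ψ : MvPolynomial σ k} {p m r : ℕ} (hF : F ≠ 0)
    (hψ : ψ ≠ 0) (hr : 1 ≤ r) (hm : m ≤ p) (hmr : m * (r - 1) < p)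
    (hfree : ∀ E : MvPolynomial σ k, Irreducible E → ¬ E ^ r ∣ F)
    (h : Φ * F ^ (p - m) = ψ ^ p) : F ∣ ψ := by
  rw [UniqueFactorizationMonoid.dvd_iff_emultiplicity_le hF]
  intro E hE
  rw [emultiplicity_le_emultiplicity_iff]
  intro j hj
  rcases Nat.eq_zero_or_pos j with rfl | hj0
  · simp
  have hjr : j ≤ r - 1 := by
    by_contra hlt
    apply hfree E hE.irreducible
    exact (pow_dvd_pow E (by omega)).trans hj
  have hfin : FiniteMultiplicity E ψ := FiniteMultiplicity.of_not_isUnit hE.not_isUnit hψ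
  obtain ⟨ψ', hψ', hnd⟩ := hfin.exists_eq_pow_mul_and_not_dvd
  set c := multiplicity E ψ with hc
  have h1 : E ^ (j * (p - m)) ∣ ψ ^ p := by
    rw [← h, pow_mul]
    exact Dvd.dvd.mul_left (pow_dvd_pow_of_dvd hj _) _
  rw [hψ', mul_pow, ← pow_mul] at h1
  have h2 : j * (p - m) ≤ c * p := by
    by_contra hlt
    push Not at hlt
    have h3 : E ^ (c * p) * E ∣ E ^ (c * p) * ψ' ^ p := by
      rw [← pow_succ]
      exact (pow_dvd_pow E (by omega)).trans h1
    have h4 : E ∣ ψ' ^ p := (mul_dvd_mul_iff_left (pow_ne_zero _ hE.ne_zero)).1 h3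
    exact hnd (hE.dvd_of_dvd_pow h4)
  have h5 : j ≤ c := by
    have h6 : j * m ≤ m * (r - 1) := by
      rw [mul_comm]
      exact Nat.mul_le_mul_left _ hjr
    have h7 : j * p = j * (p - m) + j * m := by
      rw [← mul_add]
      congr 1
      omega
    by_contra hlt
    have h8 : (c + 1) * p ≤ j * p := Nat.mul_le_mul_right _ (by omega)
    have h9 : (c + 1) * p = c * p + p := by ring
    omega
  rw [hψ']
  exact Dvd.dvd.mul_right (pow_dvd_pow E h5) _

theorem isHomogeneous_mul_pderiv {F Φ : MvPolynomial σ k} {D D' : ℕ} (hF : F.IsHomogeneous D)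
    (hΦ : Φ.IsHomogeneous D') (i : σ) : (F * pderiv i Φ).IsHomogeneous (D + D' - 1) := by
  rcases Nat.eq_zero_or_pos D' with rfl | h
  · have h1 : pderiv i Φ = 0 := by
      have h2 : Φ = C (coeff 0 Φ) := by
        apply (totalDegree_eq_zero_iff_eq_C).1
        have := hΦ.totalDegree_le
        omega
      rw [h2, pderiv_C]
    rw [h1, mul_zero]
    exact isHomogeneous_zero _ _ _
  · have h1 := hF.mul (hΦ.pderiv (i := i))
    have e : D + (D' - 1) = D + D' - 1 := by omega
    rwa [e] at h1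

theorem mul_pderiv_pow (F : MvPolynomial σ k) (i : σ) (j : ℕ) :
    F * pderiv i (F ^ j) = (j : MvPolynomial σ k) * pderiv i F * F ^ j := by
  rw [Derivation.leibniz_pow]
  rcases j with _ | j
  · simp
  · rw [Nat.add_sub_cancel, nsmul_eq_mul, smul_eq_mul, pow_succ]
    push_cast
    ring

end

section

variable {σ : Type*} [Fintype σ] {k : Type*} [Field k] [IsAlgClosed k]
  (p : ℕ) [Fact p.Prime] [CharP k p] [PerfectRing k p]

/-- log-flatness: the first Frobenius level -/
theorem core_one {I : Ideal (MvPolynomial σ k)}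
    (hI : ∀ u ∈ I, ∀ d, homogeneousComponent d u ∈ I) {F : MvPolynomial σ k} {D r t m : ℕ}
    (hF : F.IsHomogeneous D) (hF0 : F ≠ 0) (hr : 1 ≤ r) (ht : t = D / r) (ht1 : 1 ≤ t)
    (hm : m = (p + r - 1) / r) (hp : (2 * r - 1) * D ≤ p)
    (hmem : F ^ m ∈ frob p 1 I)
    (hfree : ∀ E : MvPolynomial σ k, Irreducible E → ¬ E ^ r ∣ F) :
    F ^ m ∈ frob p 1 (low I t) := by
  have hpp : p.Prime := Fact.out
  have hD1 : r * t ≤ D := by rw [ht]; exact Nat.mul_div_le D r
  have hD2 : D < r * (t + 1) := by rw [ht]; exact Nat.lt_mul_div_succ D hr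
  have hm1 : r * m ≤ p + r - 1 := by rw [hm]; exact Nat.mul_div_le _ r
  have hm2 : p ≤ r * m := by
    have : p + r - 1 < r * (m + 1) := by rw [hm]; exact Nat.lt_mul_div_succ _ hr
    rw [mul_add, mul_one] at this
    omega
  have hmp : m ≤ p := by
    by_contra hlt
    have h1 : r * (p + 1) ≤ r * m := Nat.mul_le_mul_left _ (by omega)
    have h2 : r * (p + 1) = r * p + r := by ring
    have h3 : 1 * p ≤ r * p := Nat.mul_le_mul_right _ hr
    omega
  -- the main degree inequality
  have key : (m + 1) * D ≤ p * (t + 1) := by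
    have h1 : r * ((m + 1) * D) ≤ r * (p * (t + 1)) := by
      have e1 : r * ((m + 1) * D) = (r * m + r) * D := by ring
      have e2 : r * (p * (t + 1)) = p * (r * (t + 1)) := by ring
      have h2 : (r * m + r) * D ≤ (p + (2 * r - 1)) * D := Nat.mul_le_mul_right _ (by omega)
      have h3 : (p + (2 * r - 1)) * D = p * D + (2 * r - 1) * D := by ring
      have h4 : p * (D + 1) ≤ p * (r * (t + 1)) := Nat.mul_le_mul_left _ hD2
      have h5 : p * (D + 1) = p * D + p := by ring
      omega
    exact Nat.le_of_mul_le_mul_left h1 hr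
  have hpt : p * t ≤ m * D := by
    have h1 : r * (p * t) ≤ r * (m * D) := by
      calc r * (p * t) = p * (r * t) := by ring
        _ ≤ p * D := Nat.mul_le_mul_left _ hD1
        _ ≤ (r * m) * D := Nat.mul_le_mul_right _ hm2
        _ = r * (m * D) := by ring
    exact Nat.le_of_mul_le_mul_left h1 hr
  have hD0 : 1 ≤ D := by
    have : 1 * 1 ≤ r * t := Nat.mul_le_mul hr ht1
    omega
  have hmD : (m + 1) * D = m * D + D := by ring
  have hptt : p * (t + 1) = p * t + p := by ring
  have hFm : (F ^ m).IsHomogeneous (m * D) := by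
    have := hF.pow m
    rwa [mul_comm] at this
  have hmr : m * (r - 1) < p := by
    obtain ⟨s, rfl⟩ : ∃ s, r = s + 1 := ⟨r - 1, by omega⟩
    rw [Nat.add_sub_cancel]
    have h1 : (s + 1) * (m * s) ≤ (p + s) * s := by
      calc (s + 1) * (m * s) = ((s + 1) * m) * s := by ring
        _ ≤ (p + s) * s := Nat.mul_le_mul_right _ (by omega)
    have h2 : (2 * (s + 1) - 1) * (s + 1) ≤ p := by
      refine le_trans (Nat.mul_le_mul_left _ ?_) hp
      calc s + 1 = (s + 1) * 1 := by ring
        _ ≤ (s + 1) * t := Nat.mul_le_mul_left _ ht1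
        _ ≤ D := hD1
    have h3 : 2 * (s + 1) - 1 = 2 * s + 1 := by omega
    rw [h3] at h2
    have h4 : (s + 1) * (m * s) < (s + 1) * p := by nlinarith
    exact Nat.lt_of_mul_lt_mul_left h4
  have hlt1 : m * D < p ^ 1 * (t + 1) := by
    rw [pow_one]
    omega
  apply mem_frob_low p hI hmem hFm hlt1
  intro L
  set Φ := Phi p 1 L.f (F ^ m) with hΦ
  set D' := m * D - p * t with hD'
  have hΦh : Φ.IsHomogeneous D' :=
    Phi_isHomogeneous p L hFm (by rw [pow_one]; omega)
  -- log-flatness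
  have hflat : ∀ i, F * pderiv i Φ = (m : MvPolynomial σ k) * pderiv i F * Φ := by
    intro i
    have h1 := Phi_mul p 1 L (pderiv_mem_frob p le_rfl i hmem) F
    have h2 := Ideal.mul_mem_left _ F (Phi_pderiv p le_rfl L hmem i)
    have h3 := Phi_mul p 1 L hmem ((m : MvPolynomial σ k) * pderiv i F)
    rw [mul_pderiv_pow] at h1
    have h4 : F * pderiv i Φ - (m : MvPolynomial σ k) * pderiv i F * Φ ∈
        frob p 1 (idealOfVars σ k) := by
      have h5 := Ideal.sub_mem _ h3 (Ideal.add_mem _ h1 h2)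
      convert h5 using 1
      ring
    have h6 : (F * pderiv i Φ - (m : MvPolynomial σ k) * pderiv i F * Φ).IsHomogeneous
        (D + D' - 1) := by
      apply (isHomogeneous_mul_pderiv hF hΦh i).sub
      have h7 : ((m : MvPolynomial σ k) * pderiv i F * Φ).IsHomogeneous ((0 + (D - 1)) + D') := by
        apply IsHomogeneous.mul
        · apply IsHomogeneous.mul
          · have : (m : MvPolynomial σ k) = C (m : k) := by simp
            rw [this]
            exact isHomogeneous_C _ _
          · exact hF.pderiv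
        · exact hΦh
      have e : 0 + (D - 1) + D' = D + D' - 1 := by omega
      rwa [e] at h7
    have h8 := eq_zero_of_mem_frob_vars p h4 h6 (by rw [pow_one]; omega)
    exact sub_eq_zero.1 h8
  have hder : ∀ i, pderiv i (Φ * F ^ (p - m)) = 0 := by
    intro i
    have h1 : F * pderiv i (Φ * F ^ (p - m)) = 0 := by
      rw [Derivation.leibniz, smul_eq_mul, smul_eq_mul, mul_add]
      have h2 : F * (Φ * pderiv i (F ^ (p - m))) = Φ * (F * pderiv i (F ^ (p - m))) := by ring
      have h3 : F * (F ^ (p - m) * pderiv i Φ) = F ^ (p - m) * (F * pderiv i Φ) := by ring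
      rw [h2, h3, mul_pderiv_pow, hflat]
      have h4 : ((p - m : ℕ) : MvPolynomial σ k) = - (m : MvPolynomial σ k) := by
        rw [Nat.cast_sub hmp, CharP.cast_eq_zero, zero_sub]
      rw [h4]
      ring
    exact (mul_eq_zero.1 h1).resolve_left hF0
  obtain ⟨ψ, hψ⟩ := exists_pow_of_pderiv' (p := p) hder
  by_contra hΦ0
  have hψ0 : ψ ≠ 0 := by
    rintro rfl
    rw [zero_pow hpp.ne_zero] at hψ
    exact (mul_ne_zero hΦ0 (pow_ne_zero _ hF0)) hψ
  obtain ⟨θ, hθ⟩ := dvd_of_pow_eq hF0 hψ0 hr hmp hmr hfree hψ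
  have hθ0 : θ ≠ 0 := by
    rintro rfl
    rw [mul_zero] at hθ
    exact hψ0 hθ
  have h1 : Φ = F ^ m * θ ^ p := by
    have h2 : F ^ (p - m) * Φ = F ^ (p - m) * (F ^ m * θ ^ p) := by
      rw [mul_comm, hψ, hθ, mul_pow, ← mul_assoc, ← pow_add]
      congr 2
      omega
    exact mul_left_cancel₀ (pow_ne_zero _ hF0) h2
  have h2 := hΦh.totalDegree hΦ0
  rw [h1, totalDegree_mul_of_isDomain (pow_ne_zero _ hF0) (pow_ne_zero _ hθ0),
    hFm.totalDegree (pow_ne_zero _ hF0)] at h2
  have h3 : 1 ≤ p * t := Nat.mul_pos hpp.pos ht1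
  omega

omit [Fintype σ] [IsAlgClosed k] [Fact p.Prime] [CharP k p] [PerfectRing k p] in
theorem frob_mul_le (e : ℕ) (J J' : Ideal (MvPolynomial σ k)) :
    frob p e J * frob p e J' ≤ frob p e (J * J') := by
  unfold frob
  rw [Ideal.span_mul_span', Ideal.span_le]
  rintro _ ⟨_, ⟨y, hy, rfl⟩, _, ⟨z, hz, rfl⟩, rfl⟩
  simp only
  rw [← mul_pow]
  exact Ideal.subset_span ⟨y * z, Ideal.mul_mem_mul hy hz, rfl⟩

omit [Fintype σ] [IsAlgClosed k] [Fact p.Prime] [CharP k p] [PerfectRing k p] in
theorem frob_pow_le (e : ℕ) (J : Ideal (MvPolynomial σ k)) (r : ℕ) :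
    frob p e J ^ r ≤ frob p e (J ^ r) := by
  induction r with
  | zero =>
    rw [pow_zero, pow_zero, Ideal.one_eq_top]
    intro x _
    have h1 : (1 : MvPolynomial σ k) ∈ frob p e ⊤ := by
      have := pow_mem_frob p e (J := (⊤ : Ideal (MvPolynomial σ k))) (y := 1) trivial
      rwa [one_pow] at this
    have := Ideal.mul_mem_left _ x h1
    rwa [mul_one] at this
  | succ r ih =>
    rw [pow_succ, pow_succ]
    exact (Ideal.mul_mono ih le_rfl).trans (frob_mul_le p e _ _)

/-- all Frobenius levels -/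
theorem core_all {I : Ideal (MvPolynomial σ k)}
    (hI : ∀ u ∈ I, ∀ d, homogeneousComponent d u ∈ I) {F : MvPolynomial σ k} {D r t : ℕ}
    (hF : F.IsHomogeneous D) (hF0 : F ≠ 0) (hr : 1 ≤ r) (ht : t = D / r) (ht1 : 1 ≤ t)
    (hp : (2 * r - 1) * D ≤ p)
    (hmem : ∀ e, 1 ≤ e → F ^ ((p ^ e + r - 1) / r) ∈ frob p e I)
    (hfree : ∀ E : MvPolynomial σ k, Irreducible E → ¬ E ^ r ∣ F) (e : ℕ) (he : 1 ≤ e) :
    F ^ ((p ^ e + r - 1) / r) ∈ frob p e (low I t) := by
  have hpp : p.Prime := Fact.out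
  induction e, he using Nat.le_induction with
  | base =>
    exact core_one p hI hF hF0 hr ht ht1 (by rw [pow_one]) hp (hmem 1 le_rfl) hfree
  | succ e he ih =>
    set m := (p ^ e + r - 1) / r with hm
    set m' := (p ^ (e + 1) + r - 1) / r with hm'
    have hm1 : r * m ≤ p ^ e + r - 1 := by rw [hm]; exact Nat.mul_div_le _ r
    have hm2 : p ^ e ≤ r * m := by
      have : p ^ e + r - 1 < r * (m + 1) := by rw [hm]; exact Nat.lt_mul_div_succ _ hr
      rw [mul_add, mul_one] at this
      omega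
    have hm'1 : r * m' ≤ p ^ (e + 1) + r - 1 := by rw [hm']; exact Nat.mul_div_le _ r
    have hm'2 : p ^ (e + 1) ≤ r * m' := by
      have : p ^ (e + 1) + r - 1 < r * (m' + 1) := by rw [hm']; exact Nat.lt_mul_div_succ _ hr
      rw [mul_add, mul_one] at this
      omega
    have hD1 : r * t ≤ D := by rw [ht]; exact Nat.mul_div_le D r
    have hD2 : D < r * (t + 1) := by rw [ht]; exact Nat.lt_mul_div_succ D hr
    have hmm : m' ≤ p * m := by
      by_contra hlt
      have h1 : r * (p * m + 1) ≤ r * m' := Nat.mul_le_mul_left _ (by omega)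
      have h2 : r * (p * m + 1) = p * (r * m) + r := by ring
      have h3 : p * p ^ e ≤ p * (r * m) := Nat.mul_le_mul_left _ hm2
      have h4 : p ^ (e + 1) = p * p ^ e := by ring
      omega
    obtain ⟨c, hc⟩ := Nat.exists_eq_add_of_le hmm
    have key : p * m * D < p ^ (e + 1) * (t + 1) := by
      have h1 : m * D < p ^ e * (t + 1) := by
        have h2 : r * (m * D) < r * (p ^ e * (t + 1)) := by
          have e1 : r * (m * D) = (r * m) * D := by ring
          have e2 : r * (p ^ e * (t + 1)) = p ^ e * (r * (t + 1)) := by ring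
          have h3 : (r * m) * D ≤ (p ^ e + (r - 1)) * D := Nat.mul_le_mul_right _ (by omega)
          have h4 : (p ^ e + (r - 1)) * D = p ^ e * D + (r - 1) * D := by ring
          have h5 : p ^ e * (D + 1) ≤ p ^ e * (r * (t + 1)) := Nat.mul_le_mul_left _ hD2
          have h6 : p ^ e * (D + 1) = p ^ e * D + p ^ e := by ring
          have h7 : p ≤ p ^ e := by
            calc p = p ^ 1 := (pow_one p).symm
              _ ≤ p ^ e := Nat.pow_le_pow_right hpp.pos he
          have hD0 : 1 ≤ D := by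
            have : 1 * 1 ≤ r * t := Nat.mul_le_mul hr ht1
            omega
          have h8 : (r - 1) * D + 1 ≤ (2 * r - 1) * D := by
            have : (r - 1) * D + r * D = (2 * r - 1) * D := by
              rw [← add_mul]
              congr 1
              omega
            have : 1 * 1 ≤ r * D := Nat.mul_le_mul hr hD0
            omega
          omega
        exact Nat.lt_of_mul_lt_mul_left h2
      have h2 : p * (m * D + 1) ≤ p * (p ^ e * (t + 1)) := Nat.mul_le_mul_left _ h1
      have h3 : p * (m * D + 1) = p * m * D + p := by ring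
      have h4 : p * (p ^ e * (t + 1)) = p ^ (e + 1) * (t + 1) := by ring
      have := hpp.pos
      omega
    have hcD : p * m * D = c * D + m' * D := by rw [hc]; ring
    have hFm' : (F ^ m').IsHomogeneous (m' * D) := by
      have := hF.pow m'
      rwa [mul_comm] at this
    have hFc : (F ^ c).IsHomogeneous (c * D) := by
      have := hF.pow c
      rwa [mul_comm] at this
    have hpt : p ^ (e + 1) * t ≤ m' * D := by
      have h1 : r * (p ^ (e + 1) * t) ≤ r * (m' * D) := by
        calc r * (p ^ (e + 1) * t) = p ^ (e + 1) * (r * t) := by ring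
          _ ≤ p ^ (e + 1) * D := Nat.mul_le_mul_left _ hD1
          _ ≤ (r * m') * D := Nat.mul_le_mul_right _ hm'2
          _ = r * (m' * D) := by ring
      exact Nat.le_of_mul_le_mul_left h1 hr
    have hpt' : p ^ (e + 1) * (t + 1) = p ^ (e + 1) * t + p ^ (e + 1) := by ring
    apply mem_frob_low p hI (hmem (e + 1) (by omega)) hFm' (by omega)
    intro L
    have h1 := Phi_mul p (e + 1) L (hmem (e + 1) (by omega)) (F ^ c)
    have h2 : F ^ c * F ^ m' ∈ frob p (e + 1) (low I t) := by
      have h3 := pow_mem_frob_of_mem p (j := 1) ih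
      rw [← pow_mul, pow_one] at h3
      rw [← pow_add]
      have e1 : c + m' = m * p := by rw [mul_comm m p, hc]; ring
      rwa [e1]
    have h3 : Phi p (e + 1) L.f (F ^ c * F ^ m') = 0 := by
      unfold Phi
      apply Finset.sum_eq_zero
      intro a ha
      rw [mem_frob] at h2
      rw [L.low (h2 a (mem_box.1 ha)), zero_pow (q_pos p _).ne', map_zero]
    rw [h3, zero_sub, Ideal.neg_mem_iff] at h1
    have h4 : (Phi p (e + 1) L.f (F ^ m')).IsHomogeneous (m' * D - p ^ (e + 1) * t) :=
      Phi_isHomogeneous p L hFm' (by omega)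
    have h5 := eq_zero_of_mem_frob_vars p h1 (hFc.mul h4) (by omega)
    exact (mul_eq_zero.1 h5).resolve_left (pow_ne_zero _ hF0)

/-- a weak form of tight closure being trivial -/
theorem mem_pow_of_frob {J : Ideal (MvPolynomial σ k)} {F : MvPolynomial σ k} {r e₀ : ℕ}
    (hr : 1 ≤ r) (hF0 : F ≠ 0)
    (h : ∀ e, e₀ ≤ e → F ^ ((p ^ e + r - 1) / r) ∈ frob p e J) : F ∈ J ^ r := by
  have hpp : p.Prime := Fact.out
  set B := (F ^ (r - 1)).totalDegree with hB
  set e := max (B + 1) e₀ with he
  have heB : B + 1 ≤ e := le_max_left _ _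
  have hq : B < p ^ e := by
    have := Nat.lt_pow_self hpp.one_lt (n := e)
    omega
  have h1 : (F ^ ((p ^ e + r - 1) / r)) ^ r ∈ frob p e (J ^ r) :=
    frob_pow_le p e J r (Ideal.pow_mem_pow (h e (le_max_right _ _)) r)
  have h2 : F ^ (r - 1) * F ^ p ^ e ∈ frob p e (J ^ r) := by
    rw [← pow_mul] at h1
    have hm1 : (p ^ e + r - 1) / r * r ≤ p ^ e + r - 1 := Nat.div_mul_le_self _ _
    obtain ⟨c, hc⟩ := Nat.exists_eq_add_of_le hm1
    have h3 := Ideal.mul_mem_left _ (F ^ c) h1
    rw [← pow_add] at h3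
    rw [← pow_add]
    have e1 : c + (p ^ e + r - 1) / r * r = r - 1 + p ^ e := by omega
    rwa [e1] at h3
  obtain ⟨γ, hγ⟩ := MvPolynomial.ne_zero_iff.1 (pow_ne_zero (r - 1) hF0)
  have hγB : γ.degree ≤ B := by
    rw [hB]
    exact degree_le_of_coeff_ne hγ
  have ha : ∀ i, γ i < p ^ e := fun i => by
    have := Finsupp.le_degree i γ
    omega
  rw [mem_frob] at h2
  have h3 := h2 γ ha
  rw [gam_mul_pow p ha] at h3
  have h4 : gam p e γ (F ^ (r - 1)) = C (rt k p e (coeff γ (F ^ (r - 1)))) := by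
    classical
    ext δ
    rw [coeff_gam p ha, coeff_C]
    split_ifs with h0
    · rw [← h0, smul_zero, add_zero]
    · have h5 : coeff (γ + p ^ e • δ) (F ^ (r - 1)) = 0 := by
        by_contra h6
        have h7 := degree_le_of_coeff_ne h6
        rw [map_add, map_nsmul, smul_eq_mul] at h7
        have h8 : 1 ≤ δ.degree := by
          by_contra h9
          apply h0
          exact ((Finsupp.degree_eq_zero_iff δ).1 (by omega)).symm
        have h9 : p ^ e * 1 ≤ p ^ e * δ.degree := Nat.mul_le_mul_left _ h8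
        omega
      rw [h5, map_zero]
  rw [h4, mul_comm] at h3
  have h5 : rt k p e (coeff γ (F ^ (r - 1))) ≠ 0 := (map_ne_zero _).2 hγ
  have h6 := Ideal.mul_mem_left _ (C (rt k p e (coeff γ (F ^ (r - 1))))⁻¹) h3
  rwa [← mul_assoc, ← C_mul, inv_mul_cancel₀ h5, C_1, one_mul] at h6

end

end Pool.Agent.Lib.P5aaf1b
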