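import Mathlib
import Pool.Agent.Lib.P5aaf1b.CoreP
import Pool.Agent.Lib.Chud.Ideals

set_option autoImplicit false

namespace Pool.Agent.Lib.P5aaf1b

open MvPolynomial Pool.Agent.Lib.Chud Pool.Agent.Lib.P5c592f

section

variable {σ : Type*} {k : Type*} [Field k]

theorem low_pow_le (I : Ideal (MvPolynomial σ k)) {t : ℕ} (ht : 1 ≤ t) (j : ℕ) :
    low I t ^ j ≤ Ideal.span {y | y ∈ I ^ j ∧ ∃ δ ≤ j * (t - 1), y.IsHomogeneous δ} := by
  induction j with
  | zero =>
    rw [pow_zero, Ideal.one_eq_top]
    intro x _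
    have h1 : (1 : MvPolynomial σ k) ∈
        Ideal.span {y | y ∈ I ^ 0 ∧ ∃ δ ≤ 0 * (t - 1), y.IsHomogeneous δ} := by
      apply Ideal.subset_span
      refine ⟨?_, 0, Nat.zero_le _, isHomogeneous_one _ _⟩
      rw [pow_zero, Ideal.one_eq_top]
      trivial
    have := Ideal.mul_mem_left _ x h1
    rwa [mul_one] at this
  | succ j ih =>
    rw [pow_succ]
    refine (Ideal.mul_mono ih le_rfl).trans ?_
    unfold low
    rw [Ideal.span_mul_span', Ideal.span_le]
    rintro _ ⟨y, ⟨hy, δ, hδ, hyδ⟩, z, ⟨hz, d, hd, hzd⟩, rfl⟩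
    apply Ideal.subset_span
    refine ⟨?_, δ + d, ?_, hyδ.mul hzd⟩
    · rw [pow_succ]
      exact Ideal.mul_mem_mul hy hz
    · have : (j + 1) * (t - 1) = j * (t - 1) + (t - 1) := by ring
      omega

theorem homogeneousComponent_mul_of_hom {h y : MvPolynomial σ k} {δ : ℕ} (hy : y.IsHomogeneous δ)
    (D : ℕ) : homogeneousComponent D (h * y) =
      ∑ i ∈ Finset.range (h.totalDegree + 1),
        if D = i + δ then homogeneousComponent i h * y else 0 := by
  conv_lhs => rw [← sum_homogeneousComponent h, Finset.sum_mul, map_sum]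
  apply Finset.sum_congr rfl
  intro i _
  exact homogeneousComponent_of_mem ((homogeneousComponent_isHomogeneous i h).mul hy)

theorem mem_of_low_pow' {I : Ideal (MvPolynomial σ k)} {t r D a : ℕ} (ht : 1 ≤ t)
    (hD : r * (t - 1) + a ≤ D) {F : MvPolynomial σ k} (hF : F.IsHomogeneous D)
    (hmem : F ∈ low I t ^ r) : F ∈ idealOfVars σ k ^ a * I ^ r := by
  have h1 := low_pow_le I ht r hmem
  have key : ∀ h : MvPolynomial σ k, homogeneousComponent D (h * F) ∈
      idealOfVars σ k ^ a * I ^ r := by
    clear hF hmem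
    induction h1 using Submodule.span_induction with
    | mem y hy =>
      obtain ⟨hyI, δ, hδ, hyδ⟩ := hy
      intro h
      rw [homogeneousComponent_mul_of_hom hyδ]
      apply Ideal.sum_mem
      intro i _
      split_ifs with hi
      · apply Ideal.mul_mem_mul _ hyI
        have h2 := Pool.Agent.Lib.P5c592f.IsHomogeneous.mem_idealOfVars_pow
          (homogeneousComponent_isHomogeneous i h)
        apply Ideal.pow_le_pow_right _ h2
        omega
      · exact Ideal.zero_mem _
    | zero => intro h; rw [mul_zero, map_zero]; exact Ideal.zero_mem _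
    | add x y _ _ hx hy =>
      intro h
      rw [mul_add, map_add]
      exact Ideal.add_mem _ (hx h) (hy h)
    | smul c x _ hx => intro h; rw [smul_eq_mul, ← mul_assoc]; exact hx _
  have h2 := key 1
  rwa [one_mul, homogeneousComponent_of_mem hF, if_pos rfl] at h2

theorem mem_of_low_pow {I : Ideal (MvPolynomial σ k)} {t r D : ℕ} (ht : 1 ≤ t)
    (hD : r * t ≤ D) {F : MvPolynomial σ k} (hF : F.IsHomogeneous D) (hmem : F ∈ low I t ^ r) :
    F ∈ idealOfVars σ k ^ r * I ^ r := by
  refine mem_of_low_pow' ht ?_ hF hmem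
  have h3 : r * t = r * (t - 1) + r := by
    obtain ⟨s, rfl⟩ : ∃ s, t = s + 1 := ⟨t - 1, by omega⟩
    rw [Nat.add_sub_cancel]
    ring
  omega

/-- a derivation lowers the order by at most one -/
theorem pderiv_mem_pow (J : Ideal (MvPolynomial σ k)) (i : σ) (c : ℕ) :
    ∀ x ∈ J ^ (c + 1), pderiv i x ∈ J ^ c := by
  induction c with
  | zero =>
    intro x _
    rw [pow_zero, Ideal.one_eq_top]
    trivial
  | succ c ih =>
    intro x hx
    rw [pow_succ] at hx
    induction hx using Submodule.mul_induction_on' with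
    | mem_mul_mem a ha b hb =>
      rw [Derivation.leibniz, smul_eq_mul, smul_eq_mul]
      apply Ideal.add_mem
      · exact Ideal.mul_mem_right _ _ ha
      · rw [pow_succ, mul_comm b]
        exact Ideal.mul_mem_mul (ih a ha) hb
    | add a _ b _ ha hb => rw [map_add]; exact Ideal.add_mem _ ha hb

end

section

variable {k : Type*} [Field k] {n : ℕ}

theorem mem_Iv_pow_nord {v : Fin (n + 1) → k} (hv : v ≠ 0) {d m : ℕ}
    {F : MvPolynomial (Fin (n + 1)) k} (hF : F.IsHomogeneous d) (h0 : F ≠ 0) :
    F ∈ Iv v ^ m ↔ m ≤ nord v F := by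
  rw [mem_Iv_pow_iff hv hF, nord_spec hv hF h0]
  exact_mod_cast Iff.rfl

end

section

variable {k : Type*} [Field k] [IsAlgClosed k] {n : ℕ} (p : ℕ) [Fact p.Prime] [CharP k p]

theorem charp_main (hn : 2 ≤ n) {ι : Type*} {v : ι → Fin (n + 1) → k} (hv : ∀ i, v i ≠ 0)
    {r : ℕ} (hr : 1 ≤ r) : ∀ (D : ℕ) (μ : ι → ℕ) (_ : ∃ i, 1 ≤ μ i)
    (F : MvPolynomial (Fin (n + 1)) k) (_ : F.IsHomogeneous D)
    (_ : ∀ i, 1 ≤ μ i → F ∈ Iv (v i) ^ (r * (μ i + n - 1))) (_ : (2 * r - 1) * D < p),
    F ∈ idealOfVars (Fin (n + 1)) k ^ r * (⨅ i, Iv (v i) ^ μ i) ^ r := by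
  have hpp : p.Prime := Fact.out
  intro D
  induction D using Nat.strong_induction_on with
  | _ D ih =>
  intro μ hμ F hF hmem hp
  by_cases hF0 : F = 0
  · rw [hF0]; exact Ideal.zero_mem _
  set I : Ideal (MvPolynomial (Fin (n + 1)) k) := ⨅ i, Iv (v i) ^ μ i with hIdef
  have hIh : ∀ u ∈ I, ∀ d, homogeneousComponent d u ∈ I := fun u hu d =>
    component_mem (isHomogeneous_fat v μ) hu d
  obtain ⟨i₀, hi₀⟩ := hμ
  have hord : ∀ i, 1 ≤ μ i → r * (μ i + n - 1) ≤ nord (v i) F := fun i hi =>
    (mem_Iv_pow_nord (hv i) hF hF0).1 (hmem i hi)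
  have hDr : r * 2 ≤ D := by
    have h1 := hord i₀ hi₀
    have h2 := nord_le (hv i₀) hF hF0
    have h3 : r * 2 ≤ r * (μ i₀ + n - 1) := Nat.mul_le_mul_left _ (by omega)
    omega
  have ht1 : 1 ≤ D / r := by
    rw [Nat.le_div_iff_mul_le hr]
    omega
  have hrt : r * (D / r) ≤ D := Nat.mul_div_le D r
  by_cases hfree : ∀ E : MvPolynomial (Fin (n + 1)) k, Irreducible E → ¬ E ^ r ∣ F
  · -- no component of multiplicity `≥ r`
    have hfrob : ∀ e, 1 ≤ e → F ^ ((p ^ e + r - 1) / r) ∈ frob p e I := by
      intro e _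
      set m := (p ^ e + r - 1) / r with hm
      have hm2 : p ^ e ≤ r * m := by
        have : p ^ e + r - 1 < r * (m + 1) := by rw [hm]; exact Nat.lt_mul_div_succ _ hr
        rw [mul_add, mul_one] at this
        omega
      apply fat_le_frob p hv μ (fun i => if μ i = 0 then 0 else r * (μ i + n - 1) * m) e
      · intro i
        rcases Nat.eq_zero_or_pos (μ i) with h | h
        · exact Or.inl h
        · right
          rw [if_neg (by omega)]
          have hq := q_pos p e
          obtain ⟨s, hs⟩ : ∃ s, p ^ e = s + 1 := ⟨p ^ e - 1, by omega⟩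
          obtain ⟨w, hw⟩ : ∃ w, μ i = w + 1 := ⟨μ i - 1, by omega⟩
          have h1 : p ^ e * (μ i + n - 1) ≤ r * (μ i + n - 1) * m := by
            calc p ^ e * (μ i + n - 1) ≤ (r * m) * (μ i + n - 1) := Nat.mul_le_mul_right _ hm2
              _ = r * (μ i + n - 1) * m := by ring
          refine lt_of_lt_of_le ?_ h1
          have h2 : μ i + n - 1 = w + n := by omega
          rw [h2, hs, hw, Nat.add_sub_cancel, Nat.add_sub_cancel]
          nlinarith
      · rw [Ideal.mem_iInf]
        intro i
        split_ifs with h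
        · rw [pow_zero, Ideal.one_eq_top]
          trivial
        · have := Ideal.pow_mem_pow (hmem i (by omega)) m
          rwa [← pow_mul] at this
    have h1 : F ∈ low I (D / r) ^ r := mem_pow_of_frob p hr hF0 (fun e he =>
      core_all p hIh hF hF0 hr rfl ht1 hp.le hfrob hfree e he)
    exact mem_of_low_pow ht1 hrt hF h1
  · push Not at hfree
    obtain ⟨E, hE, G, hG⟩ := hfree
    have hE0 : E ≠ 0 := hE.ne_zero
    have hEh : E.IsHomogeneous E.totalDegree := by
      apply hom_of_dvd hF hF0
      rw [hG]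
      exact Dvd.dvd.mul_right (dvd_pow_self E (by omega)) _
    have hG0 : G ≠ 0 := by
      rintro rfl
      rw [mul_zero] at hG
      exact hF0 hG
    set δ := E.totalDegree with hδ
    have hδ1 : 1 ≤ δ := totalDegree_irr hE
    have hGh' : G.IsHomogeneous G.totalDegree := hom_of_dvd hF hF0 (hG ▸ Dvd.intro_left _ rfl)
    have hDeq : D = r * δ + G.totalDegree := by
      have h1 := (hEh.pow r).mul hGh'
      rw [← hG] at h1
      rw [hF.inj_right h1 hF0]
      ring
    set D₁ := G.totalDegree with hD₁
    have hnord : ∀ i, nord (v i) F = r * nord (v i) E + nord (v i) G := fun i =>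
      nord_pow_mul (hv i) hF hF0 hG hEh hE0
    have hD₁D : D₁ < D := by
      have : 1 * 1 ≤ r * δ := Nat.mul_le_mul hr hδ1
      omega
    -- multiplication by `E`
    have hEG : ∀ (J : Ideal (MvPolynomial (Fin (n + 1)) k)), Ideal.span {E} * J ≤ I →
        G ∈ idealOfVars (Fin (n + 1)) k ^ r * J ^ r →
        F ∈ idealOfVars (Fin (n + 1)) k ^ r * I ^ r := by
      intro J hJ hGJ
      have h1 : E ^ r * G ∈ Ideal.span {E} ^ r * (idealOfVars (Fin (n + 1)) k ^ r * J ^ r) :=
        Ideal.mul_mem_mul (Ideal.pow_mem_pow (Ideal.mem_span_singleton_self E) r) hGJ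
      rw [← hG, mul_left_comm, ← mul_pow] at h1
      exact Ideal.mul_mono le_rfl (Ideal.pow_right_mono hJ r) h1
    by_cases hex : ∃ i, 1 ≤ μ i - nord (v i) E
    · apply hEG (⨅ i, Iv (v i) ^ (μ i - nord (v i) E))
      · apply le_iInf
        intro i
        have h1 : Ideal.span {E} ≤ Iv (v i) ^ nord (v i) E := by
          rw [Ideal.span_singleton_le_iff_mem]
          exact (mem_Iv_pow_nord (hv i) hEh hE0).2 le_rfl
        refine (Ideal.mul_mono h1 (iInf_le _ i)).trans ?_
        rw [← pow_add]
        exact Ideal.pow_le_pow_right (by omega)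
      · apply ih D₁ hD₁D _ hex G hGh'
        · intro i hi
          rw [mem_Iv_pow_nord (hv i) hGh' hG0]
          have h1 := hord i (by omega)
          rw [hnord] at h1
          have h2 : r * (μ i + n - 1) = r * (μ i - nord (v i) E + n - 1) + r * nord (v i) E := by
            rw [← mul_add]
            congr 1
            omega
          omega
        · refine lt_of_le_of_lt (Nat.mul_le_mul_left _ hD₁D.le) hp
    · push Not at hex
      have hc : ∀ i, μ i ≤ nord (v i) E := fun i => by
        have := hex i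
        omega
      have hEI : E ∈ I := by
        rw [hIdef, Ideal.mem_iInf]
        intro i
        exact (mem_Iv_pow_nord (hv i) hEh hE0).2 (hc i)
      by_cases hD₁r : r ≤ D₁
      · apply hEG ⊤
        · rw [Ideal.mul_top, Ideal.span_singleton_le_iff_mem]
          exact hEI
        · rw [Ideal.top_pow, Ideal.mul_top]
          exact Ideal.pow_le_pow_right hD₁r
            (Pool.Agent.Lib.P5c592f.IsHomogeneous.mem_idealOfVars_pow hGh')
      · push Not at hD₁r
        -- `E` has order `≥ μ + n - 1`
        have hc2 : ∀ i, 1 ≤ μ i → μ i + n - 1 ≤ nord (v i) E := by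
          intro i hi
          have h1 := hord i hi
          rw [hnord] at h1
          have h2 := nord_le (hv i) hGh' hG0
          have h3 : r * (μ i + n - 1) < r * (nord (v i) E + 1) := by
            rw [mul_add r (nord (v i) E), mul_one]
            omega
          have h4 := Nat.lt_of_mul_lt_mul_left h3
          omega
        have hEm : E ∈ idealOfVars (Fin (n + 1)) k * I := by
          have hd : ∀ j, pderiv j E ∈ I := by
            intro j
            rw [hIdef, Ideal.mem_iInf]
            intro i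
            rcases Nat.eq_zero_or_pos (μ i) with h | h
            · rw [h, pow_zero, Ideal.one_eq_top]
              trivial
            · apply pderiv_mem_pow
              apply (mem_Iv_pow_nord (hv i) hEh hE0).2
              have h1 := hc2 i h
              omega
          have h1 : (δ : MvPolynomial (Fin (n + 1)) k) * E ∈
              idealOfVars (Fin (n + 1)) k * I := by
            rw [← nsmul_eq_mul, ← hEh.sum_X_mul_pderiv]
            apply Ideal.sum_mem
            intro j _
            exact Ideal.mul_mem_mul (Ideal.subset_span ⟨j, rfl⟩) (hd j)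
          have hδp : (δ : k) ≠ 0 := by
            rw [Ne, CharP.cast_eq_zero_iff k p]
            intro h2
            have h3 := Nat.le_of_dvd hδ1 h2
            have h4 : 1 * D ≤ (2 * r - 1) * D := Nat.mul_le_mul_right _ (by omega)
            have h5 : 1 * δ ≤ r * δ := Nat.mul_le_mul_right _ hr
            omega
          have h2 := Ideal.mul_mem_left _ (C (δ : k)⁻¹) h1
          have h3 : (δ : MvPolynomial (Fin (n + 1)) k) = C (δ : k) := by simp
          rwa [h3, ← mul_assoc, ← C_mul, inv_mul_cancel₀ hδp, C_1, one_mul] at h2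
        have h1 := Ideal.pow_mem_pow hEm r
        rw [mul_pow] at h1
        rw [hG]
        exact Ideal.mul_mem_right _ _ h1

end

end Pool.Agent.Lib.P5aaf1b
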