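import Mathlib
import Pool.Agent.Lib.P5aaf1b.Charp
import Pool.Agent.Lib.P5aaf1b.Arith

set_option autoImplicit false

namespace Pool.Agent.Lib.P5aaf1b

open MvPolynomial Pool.Agent.Lib.Chud Pool.Agent.Lib.P5c592f

section

variable {σ : Type*} [Fintype σ] {k : Type*} [Field k]
  (p : ℕ) [Fact p.Prime] [CharP k p] [PerfectRing k p]

theorem Phi_eq_zero_of_lt {e D t : ℕ} {I : Ideal (MvPolynomial σ k)} (L : Lam I t)
    {G : MvPolynomial σ k} (hG : G.IsHomogeneous D) (hD : D < p ^ e * t) :
    Phi p e L.f G = 0 := by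
  unfold Phi
  apply Finset.sum_eq_zero
  intro a ha
  rw [mem_box] at ha
  have h0 : L.f (gam p e a G) = 0 := by
    by_cases ht : ∃ t', a.degree + p ^ e * t' = D
    · obtain ⟨t', ht'⟩ := ht
      apply L.h2 _ t' (gam_isHomogeneous p ha hG ht')
      rintro rfl
      omega
    · push Not at ht
      rw [gam_eq_zero p ha hG ht, map_zero]
  rw [h0, zero_pow (q_pos p e).ne', map_zero]

theorem Phi_isHomogeneous' {e D t : ℕ} {I : Ideal (MvPolynomial σ k)} (L : Lam I t)
    {G : MvPolynomial σ k} (hG : G.IsHomogeneous D) :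
    (Phi p e L.f G).IsHomogeneous (D - p ^ e * t) := by
  rcases Nat.lt_or_ge D (p ^ e * t) with h | h
  · rw [Phi_eq_zero_of_lt p L hG h]
    exact isHomogeneous_zero _ _ _
  · exact Phi_isHomogeneous p L hG (by omega)

/-- comparison of coefficients: if `F * H' = B * H` then `F φ(H') = B φ(H)` in small degrees -/
theorem Phi_compare {e t a b c : ℕ} {I : Ideal (MvPolynomial σ k)} (L : Lam I t)
    {F B H H' : MvPolynomial σ k} (hF : F.IsHomogeneous a) (hB : B.IsHomogeneous b)
    (hH : H.IsHomogeneous c) (hH' : H'.IsHomogeneous (b + c - a)) (hac : a ≤ b + c)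
    (hHI : H ∈ frob p e I) (hHI' : H' ∈ frob p e I) (h : F * H' = B * H)
    (hlt : b + c < p ^ e * (t + 1)) :
    F * Phi p e L.f H' = B * Phi p e L.f H := by
  have h1 := Phi_mul p e L hHI' F
  have h2 := Phi_mul p e L hHI B
  rw [h] at h1
  have h3 : F * Phi p e L.f H' - B * Phi p e L.f H ∈ frob p e (idealOfVars σ k) := by
    have h5 := Ideal.sub_mem _ h2 h1
    convert h5 using 1
    ring
  have e1 : p ^ e * (t + 1) = p ^ e * t + p ^ e := by ring
  have key : ∀ {x y z : ℕ} {A G : MvPolynomial σ k}, A.IsHomogeneous x → G.IsHomogeneous y →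
      x + y = z → (A * Phi p e L.f G).IsHomogeneous (z - p ^ e * t) := by
    intro x y z A G hA hG hz
    rcases Nat.lt_or_ge y (p ^ e * t) with h | h
    · rw [Phi_eq_zero_of_lt p L hG h, mul_zero]
      exact isHomogeneous_zero _ _ _
    · have h6 := hA.mul (Phi_isHomogeneous' (e := e) p L hG)
      have e2 : x + (y - p ^ e * t) = z - p ^ e * t := by omega
      rwa [e2] at h6
  have h4 : (F * Phi p e L.f H' - B * Phi p e L.f H).IsHomogeneous (b + c - p ^ e * t) :=
    (key hF hH' (by omega)).sub (key hB hH rfl)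
  have h5 := eq_zero_of_mem_frob_vars p h3 h4 (by have := q_pos p e; omega)
  exact sub_eq_zero.1 h5

end

section

variable {σ : Type*} {k : Type*} [Field k]

theorem pow_dvd_of_forall {F φ : MvPolynomial σ k} {j : ℕ} (hF : F ≠ 0)
    (h : ∀ E : MvPolynomial σ k, Irreducible E → E ∣ F →
      ∃ B ψ : MvPolynomial σ k, ¬ E ∣ B ∧ F ^ j * ψ = B ^ j * φ) : F ^ j ∣ φ := by
  rw [UniqueFactorizationMonoid.dvd_iff_emultiplicity_le (pow_ne_zero j hF)]
  intro E hE
  rw [emultiplicity_le_emultiplicity_iff]
  intro i hi
  rcases Nat.eq_zero_or_pos i with rfl | hi0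
  · simp
  have hEF : E ∣ F := hE.dvd_of_dvd_pow ((dvd_pow_self E (by omega)).trans hi)
  obtain ⟨B, ψ, hEB, heq⟩ := h E hE.irreducible hEF
  have h1 : E ^ i ∣ B ^ j * φ := by
    rw [← heq]
    exact Dvd.dvd.mul_right hi ψ
  exact hE.pow_dvd_of_dvd_mul_left i (fun h2 => hEB (hE.dvd_of_dvd_pow h2)) h1

end

section

variable {k : Type*} [Field k] [IsAlgClosed k] {n : ℕ} (p : ℕ) [Fact p.Prime] [CharP k p]

/-- orders of powers of `F` times powers of elements of `I` suffice for Frobenius powers -/
theorem mem_frob_mixed (hn : 1 ≤ n) {ι : Type*} {v : ι → Fin (n + 1) → k} (hv : ∀ i, v i ≠ 0)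
    {r m j e : ℕ} {μ : ι → ℕ} {F G : MvPolynomial (Fin (n + 1)) k}
    (hmem : ∀ i, 1 ≤ μ i → F ∈ Iv (v i) ^ (r * (μ i + n - 1)))
    (hG : G ∈ ⨅ i, Iv (v i) ^ μ i) (hm2 : p ^ e ≤ r * m) (hj : j ≤ m) :
    F ^ (m - j) * (G ^ (n * r)) ^ j ∈ frob p e (⨅ i, Iv (v i) ^ μ i) := by
  apply fat_le_frob p hv μ (fun i => if μ i = 0 then 0 else r * (μ i + n - 1) * m) e
  · intro i
    rcases Nat.eq_zero_or_pos (μ i) with h | h
    · exact Or.inl h
    · right
      rw [if_neg (by omega)]
      have hq := q_pos p e
      obtain ⟨s, hs⟩ : ∃ s, p ^ e = s + 1 := ⟨p ^ e - 1, by omega⟩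
      obtain ⟨w, hw⟩ : ∃ w, μ i = w + 1 := ⟨μ i - 1, by omega⟩
      have h1 : p ^ e * (μ i + n - 1) ≤ r * (μ i + n - 1) * m := by
        calc p ^ e * (μ i + n - 1) ≤ (r * m) * (μ i + n - 1) := Nat.mul_le_mul_right _ hm2
          _ = r * (μ i + n - 1) * m := by ring
      refine lt_of_lt_of_le ?_ h1
      have h2 : μ i + n - 1 = w + n := by omega
      rw [h2, hs, hw, Nat.add_sub_cancel, Nat.add_sub_cancel]
      nlinarith
  · rw [Ideal.mem_iInf]
    intro i
    split_ifs with h
    · rw [pow_zero, Ideal.one_eq_top]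
      trivial
    · rw [Ideal.mem_iInf] at hG
      have h1 := Ideal.pow_mem_pow (hmem i (by omega)) (m - j)
      have h2 := Ideal.pow_mem_pow (Ideal.pow_mem_pow (hG i) (n * r)) j
      have h3 := Ideal.mul_mem_mul h1 h2
      rw [← pow_mul, ← pow_mul, ← pow_mul, ← pow_add] at h3
      refine Ideal.pow_le_pow_right ?_ h3
      have h4 : μ i + n - 1 ≤ n * μ i := by
        obtain ⟨w, hw⟩ : ∃ w, μ i = w + 1 := ⟨μ i - 1, by omega⟩
        obtain ⟨b, rfl⟩ : ∃ b, n = b + 1 := ⟨n - 1, by omega⟩
        rw [hw]
        have : (b + 1) * (w + 1) = b * w + (w + b + 1) := by ring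
        omega
      have h5 : r * (μ i + n - 1) * j ≤ μ i * (n * r) * j := by
        apply Nat.mul_le_mul_right
        calc r * (μ i + n - 1) ≤ r * (n * μ i) := Nat.mul_le_mul_left _ h4
          _ = μ i * (n * r) := by ring
      have h6 : r * (μ i + n - 1) * m = r * (μ i + n - 1) * (m - j) + r * (μ i + n - 1) * j := by
        rw [← mul_add]
        congr 1
        omega
      have h7 : μ i * (n * r * j) = μ i * (n * r) * j := by ring
      omega

include p in
/-- the core argument when no component of `F` divides all forms of degree `≤ t` of `I` -/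
theorem core_moving (hn : 2 ≤ n) {ι : Type*} {v : ι → Fin (n + 1) → k} (hv : ∀ i, v i ≠ 0)
    {r D t : ℕ} (hr : 1 ≤ r) (ht : 1 ≤ t) {μ : ι → ℕ} {F : MvPolynomial (Fin (n + 1)) k}
    (hF : F.IsHomogeneous D) (hF0 : F ≠ 0) (hD0 : 1 ≤ D)
    (hmem : ∀ i, 1 ≤ μ i → F ∈ Iv (v i) ^ (r * (μ i + n - 1)))
    (hD : n * D < n * r * t + r)
    (hmov : ∀ E : MvPolynomial (Fin (n + 1)) k, Irreducible E → E ∣ F →
      ∃ G ∈ (⨅ i, Iv (v i) ^ μ i), (∃ g ≤ t, G.IsHomogeneous g) ∧ ¬ E ∣ G) :
    F ∈ low (⨅ i, Iv (v i) ^ μ i) t ^ r := by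
  have hpp : p.Prime := Fact.out
  set I : Ideal (MvPolynomial (Fin (n + 1)) k) := ⨅ i, Iv (v i) ^ μ i with hIdef
  have hIh : ∀ u ∈ I, ∀ d, homogeneousComponent d u ∈ I := fun u hu d =>
    component_mem (isHomogeneous_fat v μ) hu d
  set bd := n * r * D + 2 * n * n * r * (r * t) + r * D with hbd
  apply mem_pow_of_frob p (e₀ := bd + 1) hr hF0
  intro e he
  have hQ : bd < p ^ e := by
    have h1 := Nat.lt_pow_self hpp.one_lt (n := bd)
    exact h1.trans_le (Nat.pow_le_pow_right hpp.pos (by omega))
  set m := (p ^ e + r - 1) / r with hm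
  have hm1 : r * m ≤ p ^ e + r - 1 := by rw [hm]; exact Nat.mul_div_le _ r
  have hm2 : p ^ e ≤ r * m := by
    have : p ^ e + r - 1 < r * (m + 1) := by rw [hm]; exact Nat.lt_mul_div_succ _ hr
    rw [mul_add, mul_one] at this
    omega
  obtain ⟨j, hjm, hja, hjc, hjb⟩ := exists_j hn hr ht hD0 hD hm1 hm2 hQ
  have hFm : (F ^ m).IsHomogeneous (m * D) := by
    have := hF.pow m
    rwa [mul_comm] at this
  have hFmem : F ^ m ∈ frob p e I := by
    have h1 := mem_frob_mixed p (by omega) hv hmem (Ideal.zero_mem I) hm2 (Nat.zero_le m)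
    simpa using h1
  apply mem_frob_low p hIh hFmem hFm (by omega)
  intro L
  by_contra hΦ0
  have hdvd : F ^ j ∣ Phi p e L.f (F ^ m) := by
    apply pow_dvd_of_forall hF0
    intro E hE hEF
    obtain ⟨G, hGI, ⟨g, hg, hGg⟩, hEG⟩ := hmov E hE hEF
    refine ⟨G ^ (n * r), Phi p e L.f (F ^ (m - j) * (G ^ (n * r)) ^ j),
      fun h => hEG (hE.prime.dvd_of_dvd_pow h), ?_⟩
    have hBh : (G ^ (n * r)).IsHomogeneous (g * (n * r)) := hGg.pow _
    have hb : g * (n * r) ≤ n * r * t := by
      calc g * (n * r) ≤ t * (n * r) := Nat.mul_le_mul_right _ hg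
        _ = n * r * t := by ring
    have key : ∀ i ≤ j, F ^ i * Phi p e L.f (F ^ (m - i) * (G ^ (n * r)) ^ i) =
        (G ^ (n * r)) ^ i * Phi p e L.f (F ^ m) := by
      intro i
      induction i with
      | zero => intro _; simp
      | succ i ih =>
        intro hi
        have ih' := ih (by omega)
        have hjpos : j ≠ 0 := by omega
        have hjb' := hjb.resolve_left hjpos
        -- degrees
        have hdeg : (m - i) * D + (i + 1) * (n * r * t) < p ^ e * (t + 1) := by
          rcases Nat.le_total D (n * r * t) with h | h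
          · -- increasing
            obtain ⟨y, hy⟩ := Nat.exists_eq_add_of_le hi
            have h1 : m - i = (m - (j - 1)) + y := by omega
            have h2 : y * D ≤ y * (n * r * t) := Nat.mul_le_mul_left _ h
            have h3 : (m - i) * D = (m - (j - 1)) * D + y * D := by rw [h1]; ring
            have h4 : j * (n * r * t) = (i + 1) * (n * r * t) + y * (n * r * t) := by
              rw [hy]; ring
            omega
          · have h1 : m * D = (m - i) * D + i * D := by
              rw [← add_mul]
              congr 1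
              omega
            have h2 : i * (n * r * t) ≤ i * D := Nat.mul_le_mul_left _ h
            have h3 : (i + 1) * (n * r * t) = i * (n * r * t) + n * r * t := by ring
            omega
        have hHi : (F ^ (m - i) * (G ^ (n * r)) ^ i).IsHomogeneous
            ((m - i) * D + i * (g * (n * r))) := by
          have h1 := (hF.pow (m - i)).mul (hBh.pow i)
          have e1 : D * (m - i) + g * (n * r) * i = (m - i) * D + i * (g * (n * r)) := by ring
          rwa [e1] at h1
        have hsucc : (m - i) * D = (m - (i + 1)) * D + D := by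
          obtain ⟨y, hy⟩ := Nat.exists_eq_add_of_le (show i + 1 ≤ m by omega)
          have h1 : m - i = y + 1 := by omega
          have h2 : m - (i + 1) = y := by omega
          rw [h1, h2]
          ring
        have hHi' : (F ^ (m - (i + 1)) * (G ^ (n * r)) ^ (i + 1)).IsHomogeneous
            (g * (n * r) + ((m - i) * D + i * (g * (n * r))) - D) := by
          have h1 := (hF.pow (m - (i + 1))).mul (hBh.pow (i + 1))
          have e1 : D * (m - (i + 1)) + g * (n * r) * (i + 1) =
              g * (n * r) + ((m - i) * D + i * (g * (n * r))) - D := by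
            have e2 : D * (m - (i + 1)) = (m - (i + 1)) * D := by ring
            have e3 : g * (n * r) * (i + 1) = i * (g * (n * r)) + g * (n * r) := by ring
            omega
          rwa [e1] at h1
        have hcmp := Phi_compare p (e := e) L hF hBh hHi hHi' (by omega)
          (mem_frob_mixed p (by omega) hv hmem hGI hm2 (by omega))
          (mem_frob_mixed p (by omega) hv hmem hGI hm2 (by omega)) (by
            have h1 : m - i = (m - (i + 1)) + 1 := by omega
            rw [h1, pow_succ, pow_succ]
            ring) (by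
            have h5 : (i + 1) * (g * (n * r)) ≤ (i + 1) * (n * r * t) :=
              Nat.mul_le_mul_left _ hb
            have h6 : (i + 1) * (g * (n * r)) = g * (n * r) + i * (g * (n * r)) := by ring
            omega)
        calc F ^ (i + 1) * Phi p e L.f (F ^ (m - (i + 1)) * (G ^ (n * r)) ^ (i + 1))
            = F ^ i * (F * Phi p e L.f (F ^ (m - (i + 1)) * (G ^ (n * r)) ^ (i + 1))) := by
              rw [pow_succ]; ring
          _ = F ^ i * (G ^ (n * r) * Phi p e L.f (F ^ (m - i) * (G ^ (n * r)) ^ i)) := by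
              rw [hcmp]
          _ = G ^ (n * r) * (F ^ i * Phi p e L.f (F ^ (m - i) * (G ^ (n * r)) ^ i)) := by ring
          _ = G ^ (n * r) * ((G ^ (n * r)) ^ i * Phi p e L.f (F ^ m)) := by rw [ih']
          _ = (G ^ (n * r)) ^ (i + 1) * Phi p e L.f (F ^ m) := by rw [pow_succ]; ring
    exact key j le_rfl
  obtain ⟨ψ, hψ⟩ := hdvd
  have hψ0 : ψ ≠ 0 := by
    rintro rfl
    rw [mul_zero] at hψ
    exact hΦ0 hψ
  rcases Nat.lt_or_ge (m * D) (p ^ e * t) with hlt | hge
  · exact hΦ0 (Phi_eq_zero_of_lt p L hFm hlt)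
  have h1 := (Phi_isHomogeneous' (e := e) p L hFm).totalDegree hΦ0
  rw [hψ, totalDegree_mul_of_isDomain (pow_ne_zero _ hF0) hψ0,
    (hF.pow j).totalDegree (pow_ne_zero _ hF0)] at h1
  have h2 : m * D = (m - j) * D + D * j := by
    rw [mul_comm D j, ← add_mul]
    congr 1
    omega
  omega

include p in
/-- every characteristic `p`: the gap is at least `1/n` -/
theorem charp_all_main (hn : 2 ≤ n) {ι : Type*} {v : ι → Fin (n + 1) → k} (hv : ∀ i, v i ≠ 0)
    {r : ℕ} (hr : 1 ≤ r) : ∀ (D t : ℕ) (μ : ι → ℕ) (_ : ∃ i, 1 ≤ μ i)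
    (F : MvPolynomial (Fin (n + 1)) k) (_ : F.IsHomogeneous D)
    (_ : ∀ i, 1 ≤ μ i → F ∈ Iv (v i) ^ (r * (μ i + n - 1))) (_ : n * D < n * r * t + r),
    F ∈ low (⨅ i, Iv (v i) ^ μ i) t ^ r := by
  have hpp : p.Prime := Fact.out
  intro D
  induction D using Nat.strong_induction_on with
  | _ D ih =>
  intro t μ hμ F hF hmem hD
  by_cases hF0 : F = 0
  · rw [hF0]; exact Ideal.zero_mem _
  set I : Ideal (MvPolynomial (Fin (n + 1)) k) := ⨅ i, Iv (v i) ^ μ i with hIdef
  have hIh : ∀ u ∈ I, ∀ d, homogeneousComponent d u ∈ I := fun u hu d =>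
    component_mem (isHomogeneous_fat v μ) hu d
  obtain ⟨i₀, hi₀⟩ := hμ
  have hord : ∀ i, 1 ≤ μ i → r * (μ i + n - 1) ≤ nord (v i) F := fun i hi =>
    (mem_Iv_pow_nord (hv i) hF hF0).1 (hmem i hi)
  have hDn : r * n ≤ D := by
    have h1 := hord i₀ hi₀
    have h2 := nord_le (hv i₀) hF hF0
    have h3 : r * n ≤ r * (μ i₀ + n - 1) := Nat.mul_le_mul_left _ (by omega)
    omega
  have hD0 : 1 ≤ D := by
    have : 1 * 1 ≤ r * n := Nat.mul_le_mul hr (by omega)
    omega
  have ht : 1 ≤ t := by
    by_contra hlt
    have h0 : t = 0 := by omega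
    subst h0
    have h1 : n * (r * n) ≤ n * D := Nat.mul_le_mul_left _ hDn
    have h2 : 1 * (r * 1) ≤ n * (r * n) :=
      Nat.mul_le_mul (by omega) (Nat.mul_le_mul_left _ (by omega))
    rw [mul_zero, zero_add] at hD
    omega
  by_cases hmov : ∀ E : MvPolynomial (Fin (n + 1)) k, Irreducible E → E ∣ F →
      ∃ G ∈ I, (∃ g ≤ t, G.IsHomogeneous g) ∧ ¬ E ∣ G
  · exact core_moving p hn hv hr ht hF hF0 hD0 hmem hD hmov
  · push Not at hmov
    obtain ⟨E, hE, hEF, hEdiv⟩ := hmov
    -- `F ∈ (I_{≤ t})^r`
    have hlow : F ∈ low I (t + 1) ^ r := by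
      apply mem_pow_of_frob p (e₀ := r * D + 1) hr hF0
      intro e he
      have hQ : r * D < p ^ e := by
        have h1 := Nat.lt_pow_self hpp.one_lt (n := r * D)
        exact h1.trans_le (Nat.pow_le_pow_right hpp.pos (by omega))
      set m := (p ^ e + r - 1) / r with hm
      have hm1 : r * m ≤ p ^ e + r - 1 := by rw [hm]; exact Nat.mul_div_le _ r
      have hm2 : p ^ e ≤ r * m := by
        have : p ^ e + r - 1 < r * (m + 1) := by rw [hm]; exact Nat.lt_mul_div_succ _ hr
        rw [mul_add, mul_one] at this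
        omega
      have hFm : (F ^ m).IsHomogeneous (m * D) := by
        have := hF.pow m
        rwa [mul_comm] at this
      have hFmem : F ^ m ∈ frob p e I := by
        have h1 := mem_frob_mixed p (by omega) hv hmem (Ideal.zero_mem I) hm2 (Nat.zero_le m)
        simpa using h1
      have hmD : m * D < p ^ e * (t + 1) := by
        have h1 : r * (m * D) < r * (p ^ e * (t + 1)) := by
          have h2 : D < r * (t + 1) := by
            by_contra hge
            push Not at hge
            have h3 : n * (r * (t + 1)) ≤ n * D := Nat.mul_le_mul_left _ hge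
            have h4 : n * (r * (t + 1)) = n * r * t + n * r := by ring
            have h5 : 1 * r ≤ n * r := Nat.mul_le_mul_right _ (by omega)
            omega
          have h3 : r * m * D ≤ (p ^ e + (r - 1)) * D := Nat.mul_le_mul_right _ (by omega)
          have h4 : (p ^ e + (r - 1)) * D = p ^ e * D + (r - 1) * D := by ring
          have h5 : (r - 1) * D ≤ r * D := Nat.mul_le_mul_right _ (by omega)
          have h6 : p ^ e * (D + 1) ≤ p ^ e * (r * (t + 1)) := Nat.mul_le_mul_left _ h2
          have h7 : p ^ e * (D + 1) = p ^ e * D + p ^ e := by ring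
          have e1 : r * (m * D) = r * m * D := by ring
          have e2 : r * (p ^ e * (t + 1)) = p ^ e * (r * (t + 1)) := by ring
          omega
        exact Nat.lt_of_mul_lt_mul_left h1
      rw [mem_frob] at hFmem ⊢
      intro a ha
      by_cases ht' : ∃ t', a.degree + p ^ e * t' = m * D
      · obtain ⟨t', ht'⟩ := ht'
        refine Ideal.subset_span ⟨hFmem a ha, t', ?_, gam_isHomogeneous p ha hFm ht'⟩
        by_contra hlt
        have := Nat.mul_le_mul_left (p ^ e) (Nat.le_of_not_lt hlt)
        omega
      · push Not at ht'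
        rw [gam_eq_zero p ha hFm ht']
        exact Ideal.zero_mem _
    have hlowE : low I (t + 1) ≤ Ideal.span {E} := by
      rw [low, Ideal.span_le]
      rintro u ⟨hu, d, hd, hud⟩
      rw [SetLike.mem_coe, Ideal.mem_span_singleton]
      exact hEdiv u hu ⟨d, by omega, hud⟩
    obtain ⟨G, hG⟩ : E ^ r ∣ F := by
      have h1 := Ideal.pow_right_mono hlowE r hlow
      rwa [Ideal.span_singleton_pow, Ideal.mem_span_singleton] at h1
    have hE0 : E ≠ 0 := hE.ne_zero
    have hEh : E.IsHomogeneous E.totalDegree := hom_of_dvd hF hF0 hEF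
    have hG0 : G ≠ 0 := by
      rintro rfl
      rw [mul_zero] at hG
      exact hF0 hG
    set δ := E.totalDegree with hδ
    have hδ1 : 1 ≤ δ := totalDegree_irr hE
    have hGh' : G.IsHomogeneous G.totalDegree := hom_of_dvd hF hF0 (hG ▸ Dvd.intro_left _ rfl)
    have hDeq : D = r * δ + G.totalDegree := by
      have h1 := (hEh.pow r).mul hGh'
      rw [← hG] at h1
      rw [hF.inj_right h1 hF0]
      ring
    set D₁ := G.totalDegree with hD₁
    have hnord : ∀ i, nord (v i) F = r * nord (v i) E + nord (v i) G := fun i =>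
      nord_pow_mul (hv i) hF hF0 hG hEh hE0
    have hD₁D : D₁ < D := by
      have : 1 * 1 ≤ r * δ := Nat.mul_le_mul hr hδ1
      omega
    by_cases hex : ∃ i, 1 ≤ μ i - nord (v i) E
    · -- induction
      obtain ⟨i₁, hi₁⟩ := hex
      have hordG : ∀ i, 1 ≤ μ i - nord (v i) E →
          r * (μ i - nord (v i) E + n - 1) ≤ nord (v i) G := by
        intro i hi
        have h1 := hord i (by omega)
        rw [hnord] at h1
        have h2 : r * (μ i + n - 1) = r * (μ i - nord (v i) E + n - 1) + r * nord (v i) E := by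
          rw [← mul_add]
          congr 1
          omega
        omega
      have hδt : δ ≤ t := by
        by_contra hlt
        have h1 : n * (r * (t + 1)) ≤ n * (r * δ) :=
          Nat.mul_le_mul_left _ (Nat.mul_le_mul_left _ (by omega))
        have h2 : n * D = n * (r * δ) + n * D₁ := by rw [hDeq]; ring
        have h3 : n * (r * (t + 1)) = n * r * t + n * r := by ring
        have h4 : 1 * r ≤ n * r := Nat.mul_le_mul_right _ (by omega)
        omega
      have h1 := ih D₁ hD₁D (t - δ) (fun i => μ i - nord (v i) E) ⟨i₁, hi₁⟩ G hGh'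
        (fun i hi => (mem_Iv_pow_nord (hv i) hGh' hG0).2 (hordG i hi)) (by
          obtain ⟨y, hy⟩ := Nat.exists_eq_add_of_le hδt
          have e1 : t - δ = y := by omega
          rw [e1]
          have e2 : n * D = n * r * δ + n * D₁ := by rw [hDeq]; ring
          have e3 : n * r * t = n * r * δ + n * r * y := by rw [hy]; ring
          omega)
      have h2 : Ideal.span {E} * low (⨅ i, Iv (v i) ^ (μ i - nord (v i) E)) (t - δ) ≤
          low I t := by
        rw [low, Ideal.span_mul_span', Ideal.span_le]
        rintro _ ⟨_, rfl, u, ⟨hu, d, hd, hud⟩, rfl⟩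
        apply Ideal.subset_span
        refine ⟨?_, δ + d, by omega, hEh.mul hud⟩
        rw [hIdef, Ideal.mem_iInf]
        intro i
        rw [Ideal.mem_iInf] at hu
        have h3 := Ideal.mul_mem_mul ((mem_Iv_pow_nord (hv i) hEh hE0).2 (le_refl _)) (hu i)
        rw [← pow_add] at h3
        exact Ideal.pow_le_pow_right (by omega) h3
      have h3 : E ^ r * G ∈ (Ideal.span {E} *
          low (⨅ i, Iv (v i) ^ (μ i - nord (v i) E)) (t - δ)) ^ r := by
        rw [mul_pow]
        exact Ideal.mul_mem_mul (Ideal.pow_mem_pow (Ideal.mem_span_singleton_self E) r) h1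
      rw [hG]
      exact Ideal.pow_right_mono h2 r h3
    · push Not at hex
      have hc : ∀ i, μ i ≤ nord (v i) E := fun i => by
        have := hex i
        omega
      have hEI : E ∈ I := by
        rw [hIdef, Ideal.mem_iInf]
        intro i
        exact (mem_Iv_pow_nord (hv i) hEh hE0).2 (hc i)
      by_cases hδt : δ < t
      · have h1 : E ∈ low I t := Ideal.subset_span ⟨hEI, δ, hδt, hEh⟩
        rw [hG]
        exact Ideal.mul_mem_right _ _ (Ideal.pow_mem_pow h1 r)
      · exfalso
        push Not at hδt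
        have hD₁r : D₁ < r := by
          have h1 : n * (r * t) ≤ n * (r * δ) :=
            Nat.mul_le_mul_left _ (Nat.mul_le_mul_left _ hδt)
          have h2 : n * D = n * (r * δ) + n * D₁ := by rw [hDeq]; ring
          have h3 : n * (r * t) = n * r * t := by ring
          have h4 : 1 * D₁ ≤ n * D₁ := Nat.mul_le_mul_right _ (by omega)
          omega
        have hδt' : δ ≤ t := by
          by_contra hlt
          have h1 : low I (t + 1) = ⊥ := by
            rw [eq_bot_iff, low, Ideal.span_le]
            rintro u ⟨hu, d, hd, hud⟩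
            rw [SetLike.mem_coe, Ideal.mem_bot]
            by_contra hu0
            have h2 := hEdiv u hu ⟨d, by omega, hud⟩
            obtain ⟨w, hw⟩ := h2
            have hw0 : w ≠ 0 := by
              rintro rfl
              rw [mul_zero] at hw
              exact hu0 hw
            have h3 := hud.totalDegree hu0
            rw [hw, totalDegree_mul_of_isDomain hE0 hw0] at h3
            omega
          rw [h1, ← Ideal.zero_eq_bot, zero_pow (by omega), Ideal.zero_eq_bot,
            Ideal.mem_bot] at hlow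
          exact hF0 hlow
        have hc2 : ∀ i, 1 ≤ μ i → μ i + n - 1 ≤ nord (v i) E := by
          intro i hi
          have h1 := hord i hi
          rw [hnord] at h1
          have h2 := nord_le (hv i) hGh' hG0
          have h3 : r * (μ i + n - 1) < r * (nord (v i) E + 1) := by
            rw [mul_add r (nord (v i) E), mul_one]
            omega
          have h4 := Nat.lt_of_mul_lt_mul_left h3
          omega
        have hder : ∀ j, pderiv j E = 0 := by
          intro j
          by_contra hne
          have hdI : pderiv j E ∈ I := by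
            rw [hIdef, Ideal.mem_iInf]
            intro i
            rcases Nat.eq_zero_or_pos (μ i) with h | h
            · rw [h, pow_zero, Ideal.one_eq_top]
              trivial
            · apply pderiv_mem_pow
              apply (mem_Iv_pow_nord (hv i) hEh hE0).2
              have h1 := hc2 i h
              omega
          obtain ⟨w, hw⟩ := hEdiv _ hdI ⟨δ - 1, by omega, hEh.pderiv⟩
          have hw0 : w ≠ 0 := by
            rintro rfl
            rw [mul_zero] at hw
            exact hne hw
          have h3 := (hEh.pderiv (i := j)).totalDegree hne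
          rw [hw, totalDegree_mul_of_isDomain hE0 hw0] at h3
          omega
        obtain ⟨g, hg⟩ := exists_pow_of_pderiv' (p := p) hder
        have h1 : E = g * g ^ (p - 1) := by
          rw [hg, ← pow_succ']
          congr 1
          have := hpp.pos
          omega
        rcases hE.isUnit_or_isUnit h1 with h2 | h2
        · apply hE.not_isUnit
          rw [hg]
          exact h2.pow p
        · have h3 : IsUnit g := by
            rw [isUnit_pow_iff (by have := hpp.two_le; omega)] at h2
            exact h2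
          apply hE.not_isUnit
          rw [hg]
          exact h3.pow p

end

end Pool.Agent.Lib.P5aaf1b
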