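import Mathlib
import Pool.Agent.Lib.P5aaf1b.Charp
import Pool.Agent.Lib.Chud.Main

set_option autoImplicit false

namespace Pool.Agent.Lib.P5aaf1b

open MvPolynomial Pool.Agent.Lib.Chud Pool.Agent.Lib.P5c592f

section Homog

variable {σ : Type*} {k : Type*} [Field k]

/-- `x ∈ I^r` has degree `≤ D` components in `(I_{≤ D})^r` -/
theorem comp_pow_mem {I : Ideal (MvPolynomial σ k)}
    (hI : ∀ u ∈ I, ∀ d, homogeneousComponent d u ∈ I) (D : ℕ) :
    ∀ (r : ℕ), ∀ x ∈ I ^ r, ∀ d ≤ D, homogeneousComponent d x ∈ low I (D + 1) ^ r := by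
  intro r
  induction r with
  | zero =>
    intro x _ d _
    rw [pow_zero, Ideal.one_eq_top]
    trivial
  | succ r ih =>
    intro x hx d hd
    rw [pow_succ] at hx
    induction hx using Submodule.mul_induction_on' with
    | mem_mul_mem a ha b hb =>
      have h1 : a * b = ∑ j ∈ Finset.range (b.totalDegree + 1), a * homogeneousComponent j b := by
        rw [← Finset.mul_sum, sum_homogeneousComponent]
      rw [h1, map_sum]
      apply Ideal.sum_mem
      intro j _
      rw [homogeneousComponent_mul_of_hom (homogeneousComponent_isHomogeneous j b)]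
      apply Ideal.sum_mem
      intro i _
      split_ifs with hij
      · rw [pow_succ]
        apply Ideal.mul_mem_mul (ih a ha i (by omega))
        exact Ideal.subset_span ⟨hI b hb j, j, by omega, homogeneousComponent_isHomogeneous j b⟩
      · exact Ideal.zero_mem _
    | add a _ b _ ha hb => rw [map_add]; exact Ideal.add_mem _ ha hb

theorem comp_vars_pow (r : ℕ) : ∀ u ∈ idealOfVars σ k ^ r, ∀ d,
    homogeneousComponent d u ∈ idealOfVars σ k ^ r := by
  intro u hu d
  rw [mem_pow_idealOfVars_iff'] at hu ⊢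
  intro x hx
  rw [coeff_homogeneousComponent]
  split_ifs
  · exact hu x hx
  · rfl

theorem comp_mem_mul {I : Ideal (MvPolynomial σ k)}
    (hI : ∀ u ∈ I, ∀ d, homogeneousComponent d u ∈ I) (D a₀ r : ℕ)
    {x : MvPolynomial σ k} (hx : x ∈ idealOfVars σ k ^ a₀ * I ^ r) :
    homogeneousComponent D x ∈ idealOfVars σ k ^ a₀ * low I (D + 1) ^ r := by
  induction hx using Submodule.mul_induction_on' with
  | mem_mul_mem a ha b hb =>
    have h1 : a * b = ∑ j ∈ Finset.range (b.totalDegree + 1), a * homogeneousComponent j b := by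
      rw [← Finset.mul_sum, sum_homogeneousComponent]
    rw [h1, map_sum]
    apply Ideal.sum_mem
    intro j _
    rw [homogeneousComponent_mul_of_hom (homogeneousComponent_isHomogeneous j b)]
    apply Ideal.sum_mem
    intro i _
    split_ifs with hij
    · exact Ideal.mul_mem_mul (comp_vars_pow a₀ a ha i)
        (comp_pow_mem hI D r b hb j (by omega))
    · exact Ideal.zero_mem _
  | add a _ b _ ha hb => rw [map_add]; exact Ideal.add_mem _ ha hb

theorem span_pow_le_prod {Δ : Type*} (g : Δ → MvPolynomial σ k) (r : ℕ) :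
    Ideal.span (Set.range g) ^ r ≤
      Ideal.span (Set.range (fun f : Fin r → Δ => ∏ i, g (f i))) := by
  induction r with
  | zero =>
    rw [pow_zero, Ideal.one_eq_top]
    intro x _
    have h1 : (1 : MvPolynomial σ k) ∈
        Ideal.span (Set.range (fun f : Fin 0 → Δ => ∏ i, g (f i))) :=
      Ideal.subset_span ⟨Fin.elim0, by simp⟩
    have := Ideal.mul_mem_left _ x h1
    rwa [mul_one] at this
  | succ r ih =>
    rw [pow_succ']
    refine (Ideal.mul_mono le_rfl ih).trans ?_
    rw [Ideal.span_mul_span', Ideal.span_le]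
    rintro _ ⟨_, ⟨a, rfl⟩, _, ⟨f, rfl⟩, rfl⟩
    apply Ideal.subset_span
    refine ⟨Fin.cons a f, ?_⟩
    simp only [Fin.prod_univ_succ, Fin.cons_zero, Fin.cons_succ]

end Homog

section Ell

variable {σ : Type*} [Fintype σ]

/-- a functional on forms of degree `D`, given by coefficients -/
noncomputable def ell {R : Type*} [CommRing R] (D : ℕ) (l : (σ →₀ ℕ) → R)
    (G : MvPolynomial σ R) : R :=
  ∑ γ ∈ (Finsupp.finite_of_degree_eq (σ := σ) D).toFinset, l γ * coeff γ G

theorem ell_add {R : Type*} [CommRing R] (D : ℕ) (l : (σ →₀ ℕ) → R) (G H : MvPolynomial σ R) :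
    ell D l (G + H) = ell D l G + ell D l H := by
  unfold ell
  rw [← Finset.sum_add_distrib]
  exact Finset.sum_congr rfl (fun γ _ => by rw [coeff_add, mul_add])

theorem ell_zero {R : Type*} [CommRing R] (D : ℕ) (l : (σ →₀ ℕ) → R) :
    ell D l (0 : MvPolynomial σ R) = 0 := by
  unfold ell
  exact Finset.sum_eq_zero (fun γ _ => by rw [coeff_zero, mul_zero])

theorem ell_C_mul {R : Type*} [CommRing R] (D : ℕ) (l : (σ →₀ ℕ) → R) (a : R)
    (G : MvPolynomial σ R) : ell D l (C a * G) = a * ell D l G := by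
  unfold ell
  rw [Finset.mul_sum]
  exact Finset.sum_congr rfl (fun γ _ => by rw [coeff_C_mul]; ring)

theorem ell_map {R K : Type*} [CommRing R] [CommRing K] (φ : R →+* K) (D : ℕ)
    (l : (σ →₀ ℕ) → R) (G : MvPolynomial σ R) :
    ell D (fun γ => φ (l γ)) (map φ G) = φ (ell D l G) := by
  unfold ell
  rw [map_sum]
  exact Finset.sum_congr rfl (fun γ _ => by rw [coeff_map, map_mul])

theorem ell_mul_eq_zero {k : Type*} [CommRing k] (D r : ℕ) (l : (σ →₀ ℕ) → k) (P : MvPolynomial σ k)
    (h : ∀ α : σ →₀ ℕ, r ≤ α.degree → ell D l (monomial α 1 * P) = 0)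
    {a : MvPolynomial σ k} (ha : ∀ x : σ →₀ ℕ, x.degree < r → coeff x a = 0) :
    ell D l (a * P) = 0 := by
  classical
  have h1 : ∀ s : Finset (σ →₀ ℕ), ell D l ((∑ γ ∈ s, monomial γ (coeff γ a)) * P) = 0 := by
    intro s
    induction s using Finset.induction_on with
    | empty => rw [Finset.sum_empty, zero_mul, ell_zero]
    | insert b s hb ih =>
      rw [Finset.sum_insert hb, add_mul, ell_add, ih, add_zero]
      have h2 : monomial b (coeff b a) = C (coeff b a) * monomial b 1 := by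
        rw [C_mul_monomial, mul_one]
      rw [h2, mul_assoc, ell_C_mul]
      rcases Nat.lt_or_ge b.degree r with hlt | hge
      · rw [ha b hlt, zero_mul]
      · rw [h b hge, mul_zero]
  have h2 := h1 a.support
  rwa [← a.as_sum] at h2

end Ell

section Spread

variable {n : ℕ} {ι : Type*} [Fintype ι]

/-- modified monomials: they vanish to the prescribed orders -/
noncomputable def bb {R : Type*} [CommRing R] (v : ι → Fin (n + 1) → R) (μ : ι → ℕ)
    (c : ℕ → (Σ i : ι, {β : Fin (n + 1) →₀ ℕ // β.degree < μ i}) → MvPolynomial (Fin (n + 1)) R)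
    (δ : Fin (n + 1) →₀ ℕ) : MvPolynomial (Fin (n + 1)) R :=
  monomial δ 1 - ∑ x, C (coeff x.2.1 (tau (v x.1) (monomial δ 1))) * c δ.degree x

theorem map_bb {R K : Type*} [CommRing R] [CommRing K] (φ : R →+* K)
    (v : ι → Fin (n + 1) → R) (μ : ι → ℕ)
    (c : ℕ → (Σ i : ι, {β : Fin (n + 1) →₀ ℕ // β.degree < μ i}) → MvPolynomial (Fin (n + 1)) R)
    (δ : Fin (n + 1) →₀ ℕ) :
    map φ (bb v μ c δ) = bb (fun i j => φ (v i j)) μ (fun d x => map φ (c d x)) δ := by
  unfold bb
  rw [map_sub, map_monomial, map_one, map_sum]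
  congr 1
  apply Finset.sum_congr rfl
  intro x _
  rw [map_mul, map_C, coeff_tau_monomial_map]

theorem exists_cert {k : Type*} [Field k] (v : ι → Fin (n + 1) → k) (μ : ι → ℕ) (d : ℕ) :
    ∃ c : (Σ i : ι, {β : Fin (n + 1) →₀ ℕ // β.degree < μ i}) → MvPolynomial (Fin (n + 1)) k,
      (∀ x, (c x).IsHomogeneous d) ∧
      ∀ G : MvPolynomial (Fin (n + 1)) k, G.IsHomogeneous d → ∀ i, OrdGE (v i) (μ i)
        (G - ∑ x, C (coeff x.2.1 (tau (v x.1) G)) * c x) := by
  classical
  let E := homogeneousSubmodule (Fin (n + 1)) k d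
  let L : E →ₗ[k] ((Σ i : ι, {β : Fin (n + 1) →₀ ℕ // β.degree < μ i}) → k) :=
    LinearMap.pi (fun x => ((lcoeff k x.2.1).comp (tau (v x.1)).toLinearMap).domRestrict E)
  have hL : ∀ (G : E) x, L G x = coeff x.2.1 (tau (v x.1) G.1) := fun G x => rfl
  obtain ⟨r, hr⟩ := L.rangeRestrict.exists_rightInverse_of_surjective L.range_rangeRestrict
  obtain ⟨s, hs⟩ := LinearMap.exists_extend r
  have hsL : ∀ G : E, L (s (L G)) = L G := by
    intro G
    have h1 : s (L G) = r (L.rangeRestrict G) := by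
      have := LinearMap.congr_fun hs (L.rangeRestrict G)
      exact this
    rw [h1]
    have h2 := LinearMap.congr_fun hr (L.rangeRestrict G)
    have h3 := congrArg Subtype.val h2
    exact h3
  refine ⟨fun x => (s (Pi.single x 1)).1, fun x => (s (Pi.single x 1)).2, ?_⟩
  intro G hG i β hβ
  have h1 : (∑ x, C (coeff x.2.1 (tau (v x.1) G)) * (s (Pi.single x 1)).1) =
      (s (L ⟨G, hG⟩)).1 := by
    rw [LinearMap.pi_apply_eq_sum_univ s (L ⟨G, hG⟩)]
    rw [Submodule.coe_sum]
    apply Finset.sum_congr rfl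
    intro x _
    have h4 : (Pi.single x (1 : k) : (Σ i : ι, {β : Fin (n + 1) →₀ ℕ // β.degree < μ i}) → k) =
        fun j => if x = j then 1 else 0 := by
      funext j
      by_cases hxj : x = j
      · subst hxj; simp
      · rw [Pi.single_eq_of_ne (Ne.symm hxj), if_neg hxj]
    rw [Submodule.coe_smul, smul_eq_C_mul, h4]
    rfl
  rw [h1, map_sub, coeff_sub]
  have h2 := congrFun (hsL ⟨G, hG⟩) ⟨i, ⟨β, hβ⟩⟩
  rw [hL, hL] at h2
  rw [h2, sub_self]

/-- every form with the prescribed orders is a combination of the modified monomials -/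
theorem eq_sum_bb {k : Type*} [Field k] {v : ι → Fin (n + 1) → k} {μ : ι → ℕ}
    (c : ℕ → (Σ i : ι, {β : Fin (n + 1) →₀ ℕ // β.degree < μ i}) → MvPolynomial (Fin (n + 1)) k)
    {d : ℕ} {G : MvPolynomial (Fin (n + 1)) k} (hG : G.IsHomogeneous d)
    (hord : ∀ i, OrdGE (v i) (μ i) G) :
    G = ∑ δ ∈ G.support, C (coeff δ G) * bb v μ c δ := by
  have hdeg : ∀ δ ∈ G.support, δ.degree = d := by
    intro δ hδ
    by_contra hne
    exact (mem_support_iff.1 hδ) (hG.coeff_eq_zero hne)
  have h1 : ∑ δ ∈ G.support, C (coeff δ G) * bb v μ c δ =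
      (∑ δ ∈ G.support, C (coeff δ G) * monomial δ 1) -
      ∑ x, (∑ δ ∈ G.support, C (coeff δ G) * C (coeff x.2.1 (tau (v x.1) (monomial δ 1)))) *
        c d x := by
    simp_rw [Finset.sum_mul]
    rw [Finset.sum_comm, ← Finset.sum_sub_distrib]
    apply Finset.sum_congr rfl
    intro δ hδ
    unfold bb
    rw [mul_sub, Finset.mul_sum, hdeg δ hδ]
    congr 1
    apply Finset.sum_congr rfl
    intro x _
    ring
  have h2 : ∀ x : (Σ i : ι, {β : Fin (n + 1) →₀ ℕ // β.degree < μ i}),
      (∑ δ ∈ G.support, C (coeff δ G) * C (coeff x.2.1 (tau (v x.1) (monomial δ 1)))) =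
      (0 : MvPolynomial (Fin (n + 1)) k) := by
    intro x
    have h3 : coeff x.2.1 (tau (v x.1) G) = 0 := hord x.1 x.2.1 x.2.2
    rw [tau_eq_sum, coeff_sum] at h3
    simp_rw [coeff_C_mul] at h3
    simp_rw [← C_mul]
    rw [← map_sum, h3, map_zero]
  simp_rw [h2, zero_mul] at h1
  rw [Finset.sum_const_zero, sub_zero] at h1
  rw [h1]
  conv_lhs => rw [G.as_sum]
  apply Finset.sum_congr rfl
  intro δ _
  rw [C_mul_monomial, mul_one]

end Spread

end Pool.Agent.Lib.P5aaf1b
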