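import Mathlib
import Pool.Agent.Lib.P5aaf1b.Spread

set_option autoImplicit false

namespace Pool.Agent.Lib.P5aaf1b

open MvPolynomial Pool.Agent.Lib.Chud Pool.Agent.Lib.P5c592f

universe u

variable {n : ℕ} {ι : Type*} [Fintype ι]

theorem bb_congr {R : Type*} [CommRing R] (v : ι → Fin (n + 1) → R) (μ : ι → ℕ)
    {c c' : ℕ → (Σ i : ι, {β : Fin (n + 1) →₀ ℕ // β.degree < μ i}) →
      MvPolynomial (Fin (n + 1)) R}
    {δ : Fin (n + 1) →₀ ℕ} (h : ∀ x, c δ.degree x = c' δ.degree x) :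
    bb v μ c δ = bb v μ c' δ := by
  unfold bb
  congr 1
  apply Finset.sum_congr rfl
  intro x _
  rw [h]

theorem ell_congr {σ : Type*} [Fintype σ] {R : Type*} [CommRing R] {D : ℕ}
    {l l' : (σ →₀ ℕ) → R} (h : ∀ γ : σ →₀ ℕ, γ.degree = D → l γ = l' γ)
    (G : MvPolynomial σ R) : ell D l G = ell D l' G := by
  unfold ell
  apply Finset.sum_congr rfl
  intro γ hγ
  rw [h γ (by simpa using hγ)]

theorem homogeneousComponent_eq_sum {σ : Type*} [Fintype σ] {R : Type*} [CommRing R] (D : ℕ)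
    (G : MvPolynomial σ R) : homogeneousComponent D G =
      ∑ γ ∈ (Finsupp.finite_of_degree_eq (σ := σ) D).toFinset, monomial γ (coeff γ G) := by
  classical
  ext x
  rw [coeff_homogeneousComponent, coeff_sum]
  simp_rw [coeff_monomial]
  rw [Finset.sum_ite_eq']
  simp

theorem exists_ell {σ : Type*} [Fintype σ] {k : Type*} [Field k]
    {J : Ideal (MvPolynomial σ k)} {D : ℕ}
    (hJ : ∀ u ∈ J, homogeneousComponent D u ∈ J) {F : MvPolynomial σ k}
    (hF : F.IsHomogeneous D) (hnot : F ∉ J) :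
    ∃ l : (σ →₀ ℕ) → k, ell D l F = 1 ∧ ∀ x ∈ J, ell D l x = 0 := by
  have h0 : F ∉ J.restrictScalars k := hnot
  obtain ⟨g, hg, hgJ⟩ := Submodule.exists_le_ker_of_notMem h0
  have key : ∀ G, ell D (fun γ => g (monomial γ 1) * (g F)⁻¹) G =
      g (homogeneousComponent D G) * (g F)⁻¹ := by
    intro G
    rw [homogeneousComponent_eq_sum, map_sum, Finset.sum_mul]
    unfold ell
    apply Finset.sum_congr rfl
    intro γ _
    have h1 : monomial γ (coeff γ G) = (coeff γ G) • monomial γ (1 : k) := by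
      rw [smul_monomial, smul_eq_mul, mul_one]
    rw [h1, map_smul, smul_eq_mul]
    ring
  refine ⟨fun γ => g (monomial γ 1) * (g F)⁻¹, ?_, ?_⟩
  · rw [key, homogeneousComponent_of_mem hF, if_pos rfl, mul_inv_cancel₀ hg]
  · intro x hx
    rw [key]
    have h1 : g (homogeneousComponent D x) = 0 := hgJ (hJ x hx)
    rw [h1, zero_mul]

theorem bb_isHomogeneous {R : Type*} [CommRing R] (v : ι → Fin (n + 1) → R) (μ : ι → ℕ)
    {c : ℕ → (Σ i : ι, {β : Fin (n + 1) →₀ ℕ // β.degree < μ i}) →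
      MvPolynomial (Fin (n + 1)) R}
    {δ : Fin (n + 1) →₀ ℕ} (h : ∀ x, (c δ.degree x).IsHomogeneous δ.degree) :
    (bb v μ c δ).IsHomogeneous δ.degree := by
  unfold bb
  apply (isHomogeneous_monomial _ rfl).sub
  apply IsHomogeneous.sum
  intro x _
  have := (isHomogeneous_C (Fin (n + 1)) (coeff x.2.1 (tau (v x.1) (monomial δ 1)))).mul (h x)
  rwa [zero_add] at this

/-- spreading out and reduction to large positive characteristic -/
theorem transfer_HH {k : Type u} [Field k] (v : ι → Fin (n + 1) → k) (hv : ∀ i, v i ≠ 0)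
    (μ M : ι → ℕ) (a₀ r D N : ℕ) (hN : ((N.factorial : ℕ) : k) ≠ 0)
    {F : MvPolynomial (Fin (n + 1)) k} (hF : F.IsHomogeneous D)
    (hord : ∀ i, OrdGE (v i) (M i) F)
    (hnot : F ∉ idealOfVars (Fin (n + 1)) k ^ a₀ * (⨅ i, Iv (v i) ^ μ i) ^ r) :
    ∃ (K : Type u) (_ : Field K) (_ : IsAlgClosed K) (p : ℕ) (_ : p.Prime) (_ : CharP K p)
      (w : ι → Fin (n + 1) → K), N < p ∧ (∀ i, w i ≠ 0) ∧
      ∃ F' : MvPolynomial (Fin (n + 1)) K, F'.IsHomogeneous D ∧ (∀ i, OrdGE (w i) (M i) F') ∧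
        F' ∉ idealOfVars (Fin (n + 1)) K ^ a₀ * (⨅ i, Iv (w i) ^ μ i) ^ r := by
  classical
  set I : Ideal (MvPolynomial (Fin (n + 1)) k) := ⨅ i, Iv (v i) ^ μ i with hI
  have hIh : ∀ u ∈ I, ∀ d, homogeneousComponent d u ∈ I := fun u hu d =>
    component_mem (isHomogeneous_fat v μ) hu d
  -- certificates
  have hc := fun d => exists_cert v μ d
  choose c hch hco using hc
  have hbb : ∀ δ, bb v μ c δ ∈ I := by
    intro δ
    rw [hI, Ideal.mem_iInf]
    intro i
    rw [mem_Iv_iff_ordGE (hv i) (bb_isHomogeneous v μ (hch δ.degree))]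
    exact hco δ.degree (monomial δ 1) (isHomogeneous_monomial _ rfl) i
  obtain ⟨l, hlF, hl⟩ := exists_ell (D := D) (fun u hu =>
    Ideal.mul_mono le_rfl (Ideal.pow_right_mono (low_le I (D + 1)) r)
      (comp_mem_mul hIh D a₀ r hu)) hF hnot
  let Δ := {δ : Fin (n + 1) →₀ ℕ // δ.degree ≤ D}
  have hvan : ∀ α : Fin (n + 1) →₀ ℕ, a₀ ≤ α.degree → ∀ f : Fin r → Δ,
      ell D l (monomial α 1 * ∏ i, bb v μ c (f i).1) = 0 := by
    intro α hα f
    apply hl
    apply Ideal.mul_mem_mul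
    · exact (monomial_mem_pow_idealOfVars_iff a₀ α one_ne_zero).2 hα
    · have h1 : ∏ i : Fin r, bb v μ c (f i).1 ∈ ∏ _i : Fin r, I :=
        Ideal.prod_mem_prod (fun i _ => hbb _)
      rwa [Finset.prod_const, Finset.card_univ, Fintype.card_fin] at h1
  -- coordinates
  have hj : ∀ i, ∃ j, v i j ≠ 0 := fun i => Function.ne_iff.1 (hv i)
  choose j hj using hj
  let s1 : Set k := ⋃ i, Set.range (v i)
  let s2 : Set k := (F.coeffs : Set k)
  let s3 : Set k := ⋃ d ∈ Set.Iic D, ⋃ x, ((c d x).coeffs : Set k)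
  let s4 : Set k := Set.range (fun i => (v i (j i))⁻¹)
  let s5 : Set k := l '' {γ : Fin (n + 1) →₀ ℕ | γ.degree = D}
  let s : Set k := s1 ∪ s2 ∪ s3 ∪ s4 ∪ s5 ∪ {((N.factorial : ℕ) : k)⁻¹}
  have hs : s.Finite := by
    refine (((((Set.finite_iUnion fun i => Set.finite_range _).union
      (Finset.finite_toSet _)).union ?_).union (Set.finite_range _)).union
        ((Finsupp.finite_of_degree_eq D).image _)).union (Set.finite_singleton _)
    refine Set.Finite.biUnion (Set.finite_Iic D) (fun d _ => ?_)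
    exact Set.finite_iUnion fun x => Finset.finite_toSet _
  obtain ⟨K, hKf, hKa, p, hp, hcp, ⟨φ⟩⟩ := exists_hom_charP k s hs
  let B := Algebra.adjoin ℤ s
  let ψ : B →+* k := B.subtype
  have hψ : Function.Injective ψ := Subtype.val_injective
  have hmem : ∀ x ∈ s, x ∈ B := fun x hx => Algebra.subset_adjoin hx
  have hs1 : ∀ i l, v i l ∈ s := fun i l =>
    Or.inl (Or.inl (Or.inl (Or.inl (Or.inl (Set.mem_iUnion.2 ⟨i, ⟨l, rfl⟩⟩)))))
  have hs2 : ∀ x ∈ F.coeffs, x ∈ s := fun x hx => Or.inl (Or.inl (Or.inl (Or.inl (Or.inr hx))))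
  have hs3 : ∀ d ≤ D, ∀ x, ∀ y ∈ (c d x).coeffs, y ∈ s := by
    intro d hd x y hy
    refine Or.inl (Or.inl (Or.inl (Or.inr ?_)))
    refine Set.mem_iUnion₂.2 ⟨d, hd, ?_⟩
    exact Set.mem_iUnion.2 ⟨x, hy⟩
  have hs4 : ∀ i, (v i (j i))⁻¹ ∈ s := fun i => Or.inl (Or.inl (Or.inr ⟨i, rfl⟩))
  have hs5 : ∀ γ : Fin (n + 1) →₀ ℕ, γ.degree = D → l γ ∈ s := fun γ hγ =>
    Or.inl (Or.inr ⟨γ, hγ, rfl⟩)
  have hs6 : ((N.factorial : ℕ) : k)⁻¹ ∈ s := Or.inr rfl
  let vB : ι → Fin (n + 1) → B := fun i l => ⟨v i l, hmem _ (hs1 i l)⟩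
  have hcB : ∀ d x, ∃ P : MvPolynomial (Fin (n + 1)) B, d ≤ D → map ψ P = c d x := by
    intro d x
    by_cases hd : d ≤ D
    · have : c d x ∈ Set.range (MvPolynomial.map ψ :
          MvPolynomial (Fin (n + 1)) B →+* MvPolynomial (Fin (n + 1)) k) := by
        rw [mem_range_map_iff_coeffs_subset]
        intro y hy
        exact ⟨⟨y, hmem y (hs3 d hd x y hy)⟩, rfl⟩
      obtain ⟨P, hP⟩ := this
      exact ⟨P, fun _ => hP⟩
    · exact ⟨0, fun h => absurd h hd⟩
  choose cB hcB using hcB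
  let lB : (Fin (n + 1) →₀ ℕ) → B := fun γ =>
    if h : γ.degree = D then ⟨l γ, hmem _ (hs5 γ h)⟩ else 0
  have hlB : ∀ γ : Fin (n + 1) →₀ ℕ, γ.degree = D → ψ (lB γ) = l γ := by
    intro γ hγ
    simp only [lB]
    rw [dif_pos hγ]
    rfl
  obtain ⟨FB, hFB⟩ : ∃ FB : MvPolynomial (Fin (n + 1)) B, map ψ FB = F := by
    have : F ∈ Set.range (MvPolynomial.map ψ :
        MvPolynomial (Fin (n + 1)) B →+* MvPolynomial (Fin (n + 1)) k) := by
      rw [mem_range_map_iff_coeffs_subset]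
      intro x hx
      exact ⟨⟨x, hmem x (hs2 x hx)⟩, rfl⟩
    exact this
  have hbbB : ∀ δ : Fin (n + 1) →₀ ℕ, δ.degree ≤ D → map ψ (bb vB μ cB δ) = bb v μ c δ := by
    intro δ hδ
    rw [map_bb]
    exact bb_congr _ _ (fun x => hcB _ x hδ)
  let w : ι → Fin (n + 1) → K := fun i l => φ (vB i l)
  let cK := fun d x => map φ (cB d x)
  have hbbK : ∀ δ, map φ (bb vB μ cB δ) = bb w μ cK δ := fun δ => map_bb φ vB μ cB δ
  have hw : ∀ i, w i ≠ 0 := by
    intro i h
    have h1 : vB i (j i) * ⟨(v i (j i))⁻¹, hmem _ (hs4 i)⟩ = 1 :=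
      Subtype.ext (mul_inv_cancel₀ (hj i))
    have h2 := congrArg φ h1
    have h3 := congrFun h (j i)
    simp only [Pi.zero_apply, w] at h3
    rw [map_mul, h3, zero_mul, map_one] at h2
    exact zero_ne_one h2
  refine ⟨K, hKf, hKa, p, hp, hcp, w, ?_, hw, map φ FB, ?_, ?_, ?_⟩
  · have h1 : ((N.factorial : ℕ) : B) * ⟨((N.factorial : ℕ) : k)⁻¹, hmem _ hs6⟩ = 1 := by
      apply Subtype.ext
      have : (((N.factorial : ℕ) : B) : k) = ((N.factorial : ℕ) : k) := by simp
      rw [Subalgebra.coe_mul, this]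
      exact mul_inv_cancel₀ hN
    have h2 := congrArg φ h1
    rw [map_mul, map_natCast, map_one] at h2
    have h3 : ((N.factorial : ℕ) : K) ≠ 0 := left_ne_zero_of_mul (h2 ▸ one_ne_zero)
    rw [Ne, CharP.cast_eq_zero_iff K p, hp.dvd_factorial] at h3
    omega
  · intro γ hγ
    rw [coeff_map] at hγ
    apply hF
    rw [← hFB, coeff_map]
    intro h
    apply hγ
    have : coeff γ FB = 0 := hψ (by rw [h, map_zero])
    rw [this, map_zero]
  · intro i γ hγ
    have e : w i = fun l => φ (vB i l) := rfl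
    rw [e, ← map_tau, coeff_map]
    have h1 : coeff γ (tau (vB i) FB) = 0 := by
      apply hψ
      rw [map_zero, ← coeff_map, map_tau, hFB]
      exact hord i γ hγ
    rw [h1, map_zero]
  · intro hmemK
    set IK : Ideal (MvPolynomial (Fin (n + 1)) K) := ⨅ i, Iv (w i) ^ μ i with hIK
    have hIKh : ∀ u ∈ IK, ∀ d, homogeneousComponent d u ∈ IK := fun u hu d =>
      component_mem (isHomogeneous_fat w μ) hu d
    let lK : (Fin (n + 1) →₀ ℕ) → K := fun γ => φ (lB γ)
    -- the functional does not vanish on `F'`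
    have hB1 : ell D lB FB = 1 := by
      apply hψ
      rw [map_one, ← ell_map, hFB, ← hlF]
      exact ell_congr (fun γ hγ => hlB γ hγ) F
    have hK1 : ell D lK (map φ FB) = 1 := by
      rw [ell_map, hB1, map_one]
    -- the functional vanishes on the products
    have hvanK : ∀ α : Fin (n + 1) →₀ ℕ, a₀ ≤ α.degree → ∀ f : Fin r → Δ,
        ell D lK (monomial α 1 * ∏ i, bb w μ cK (f i).1) = 0 := by
      intro α hα f
      have h1 : ell D lB (monomial α 1 * ∏ i, bb vB μ cB (f i).1) = 0 := by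
        apply hψ
        rw [map_zero, ← ell_map, map_mul, map_monomial, map_one, map_prod,
          ← hvan α hα f, ell_congr (fun γ hγ => hlB γ hγ)]
        congr 2
        exact Finset.prod_congr rfl (fun i _ => hbbB _ (f i).2)
      have h2 := congrArg φ h1
      rw [map_zero, ← ell_map, map_mul, map_monomial, map_one, map_prod] at h2
      rw [← h2]
      show ell D (fun γ => φ (lB γ)) _ = _
      congr 2
      exact Finset.prod_congr rfl (fun i _ => (hbbK _).symm)
    -- low degree forms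
    have hlow : low IK (D + 1) ≤ Ideal.span (Set.range (fun δ : Δ => bb w μ cK δ.1)) := by
      rw [low, Ideal.span_le]
      rintro u ⟨hu, d, hd, hud⟩
      have hordu : ∀ i, OrdGE (w i) (μ i) u := by
        intro i
        rw [hIK, Ideal.mem_iInf] at hu
        exact (mem_Iv_iff_ordGE (hw i) hud).1 (hu i)
      rw [SetLike.mem_coe, eq_sum_bb cK hud hordu]
      apply Ideal.sum_mem
      intro δ hδ
      apply Ideal.mul_mem_left
      have hdeg : δ.degree = d := by
        by_contra hne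
        exact (mem_support_iff.1 hδ) (hud.coeff_eq_zero hne)
      exact Ideal.subset_span ⟨⟨δ, by omega⟩, rfl⟩
    have hF'h : (map φ FB).IsHomogeneous D := by
      intro γ hγ
      rw [coeff_map] at hγ
      apply hF
      rw [← hFB, coeff_map]
      intro h
      apply hγ
      have : coeff γ FB = 0 := hψ (by rw [h, map_zero])
      rw [this, map_zero]
    have h1 := comp_mem_mul hIKh D a₀ r hmemK
    rw [homogeneousComponent_of_mem hF'h, if_pos rfl] at h1
    have h2 : map φ FB ∈ idealOfVars (Fin (n + 1)) K ^ a₀ *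
        Ideal.span (Set.range (fun f : Fin r → Δ => ∏ i, bb w μ cK (f i).1)) :=
      Ideal.mul_mono le_rfl ((Ideal.pow_right_mono hlow r).trans
        (span_pow_le_prod (fun δ : Δ => bb w μ cK δ.1) r)) h1
    have h3 : ∀ b ∈ Ideal.span (Set.range (fun f : Fin r → Δ => ∏ i, bb w μ cK (f i).1)),
        ∀ a ∈ idealOfVars (Fin (n + 1)) K ^ a₀, ell D lK (a * b) = 0 := by
      intro b hb
      induction hb using Submodule.span_induction with
      | mem x hx =>
        obtain ⟨f, rfl⟩ := hx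
        intro a ha
        apply ell_mul_eq_zero D a₀ lK _ (fun α hα => hvanK α hα f)
        exact (mem_pow_idealOfVars_iff' a₀ a).1 ha
      | zero => intro a _; rw [mul_zero, ell_zero]
      | add x y _ _ hx hy => intro a ha; rw [mul_add, ell_add, hx a ha, hy a ha, add_zero]
      | smul c x _ hx =>
        intro a ha
        rw [smul_eq_mul, ← mul_assoc]
        exact hx _ (Ideal.mul_mem_right _ _ ha)
    have h4 : ∀ y ∈ idealOfVars (Fin (n + 1)) K ^ a₀ *
        Ideal.span (Set.range (fun f : Fin r → Δ => ∏ i, bb w μ cK (f i).1)),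
        ell D lK y = 0 := by
      intro y hy
      induction hy using Submodule.mul_induction_on' with
      | mem_mul_mem a ha b hb => exact h3 b hb a ha
      | add a _ b _ ha hb => rw [ell_add, ha, hb, add_zero]
    rw [h4 _ h2] at hK1
    exact zero_ne_one hK1

end Pool.Agent.Lib.P5aaf1b
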