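import Mathlib
import Pool.Agent.Lib.P5aaf1b.CharpAll
import Pool.Agent.Lib.P5aaf1b.Spread2

set_option autoImplicit false

namespace Pool.Agent.Lib.P5aaf1b

open MvPolynomial Pool.Agent.Lib.Chud Pool.Agent.Lib.P5c592f

universe u

/-- forms vanishing to order `r (μ_i + n - 1)` at fat points of `P^n` lie in `𝔪^⌈r/n⌉ I^r`,
over every field -/
theorem gap_frac {k : Type u} [Field k] {n : ℕ} (hn : 2 ≤ n) {ι : Type*} [Fintype ι]
    {v : ι → Fin (n + 1) → k} (hv : ∀ i, v i ≠ 0) {μ : ι → ℕ} (hμ : ∃ i, 1 ≤ μ i) {r D : ℕ}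
    (hr : 1 ≤ r) {F : MvPolynomial (Fin (n + 1)) k} (hF : F.IsHomogeneous D)
    (hmem : ∀ i, 1 ≤ μ i → F ∈ Iv (v i) ^ (r * (μ i + n - 1))) :
    F ∈ idealOfVars (Fin (n + 1)) k ^ ((r + n - 1) / n) * (⨅ i, Iv (v i) ^ μ i) ^ r := by
  by_contra hnot
  obtain ⟨K, hKf, hKa, p, hp, hcp, w, -, hw, F', hF', hord', hnot'⟩ :=
    transfer_HH v hv μ (fun i => if μ i = 0 then 0 else r * (μ i + n - 1))
      ((r + n - 1) / n) r D 0 (by simp) hF (fun i => by
        split_ifs with h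
        · exact OrdGE.zero
        · exact (mem_Iv_iff_ordGE (hv i) hF).1 (hmem i (by omega))) hnot
  have : Fact p.Prime := ⟨hp⟩
  have hmem' : ∀ i, 1 ≤ μ i → F' ∈ Iv (w i) ^ (r * (μ i + n - 1)) := by
    intro i hi
    have h1 := hord' i
    rw [if_neg (by omega)] at h1
    exact (mem_Iv_iff_ordGE (hw i) hF').2 h1
  have hF'0 : F' ≠ 0 := by
    rintro rfl
    exact hnot' (Ideal.zero_mem _)
  apply hnot'
  obtain ⟨i₀, hi₀⟩ := hμ
  have hDn : r * n ≤ D := by
    have h1 := (mem_Iv_pow_nord (hw i₀) hF' hF'0).1 (hmem' i₀ hi₀)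
    have h2 := nord_le (hw i₀) hF' hF'0
    have h3 : r * n ≤ r * (μ i₀ + n - 1) := Nat.mul_le_mul_left _ (by omega)
    omega
  have hnr : 0 < n * r := Nat.mul_pos (by omega) hr
  have hrD : r ≤ n * D := by
    have h1 : r * 1 ≤ r * n := Nat.mul_le_mul_left _ (by omega)
    have h2 : 1 * D ≤ n * D := Nat.mul_le_mul_right _ (by omega)
    omega
  set x := (n * D - r) / (n * r) with hx
  have hx1 : n * r * x ≤ n * D - r := Nat.mul_div_le _ _
  have hx2 : n * D - r < n * r * (x + 1) := by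
    rw [hx]
    exact Nat.lt_mul_div_succ _ hnr
  clear_value x
  have h1 := charp_all_main p hn hw hr D (x + 1) μ ⟨i₀, hi₀⟩ F' hF' hmem' (by omega)
  apply mem_of_low_pow' (by omega) _ hF' h1
  rw [Nat.add_sub_cancel]
  have ha : n * ((r + n - 1) / n) ≤ r + n - 1 := Nat.mul_div_le _ _
  by_contra hlt
  push Not at hlt
  have h2 : n * (D + 1) ≤ n * (r * x + (r + n - 1) / n) := Nat.mul_le_mul_left _ hlt
  have h3 : n * (r * x + (r + n - 1) / n) = n * r * x + n * ((r + n - 1) / n) := by ring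
  have h4 : n * (D + 1) = n * D + n := by ring
  omega

end Pool.Agent.Lib.P5aaf1b
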