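import Mathlib
import Pool.Agent.Lib.Chud.Ideals
import Pool.Agent.Lib.P5aaf1b.Main1

set_option autoImplicit false

namespace Pool.Agent.Lib.P5aaf1b

open MvPolynomial Pool.Agent.Lib.P5c592f Pool.Agent.Lib.Chud

section

variable {σ : Type*} [Fintype σ] {k : Type*} [Field k] [IsAlgClosed k]

/-- the `q`-power case of the Chudnovsky bound in characteristic `p`, affine form, for points
with multiplicities, under the weak hypothesis `q (μ_i + N - 1)` on the orders -/
theorem charp_q' {p : ℕ} [Fact p.Prime] [CharP k p] {ι : Type*} [Nonempty ι]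
    (hN : 1 ≤ Fintype.card σ) (S : ι → σ → k) (μ : ι → ℕ) (A : ℕ)
    (hA : ∀ g : MvPolynomial σ k, g ≠ 0 → (∀ i, OrdGE (S i) (μ i) g) → A ≤ g.totalDegree)
    (e : ℕ) {f : MvPolynomial σ k} (hf : f ≠ 0)
    (hord : ∀ i, OrdGE (S i) (p ^ e * (μ i + (Fintype.card σ - 1))) f) :
    p ^ e * (A + Fintype.card σ - 1) ≤ f.totalDegree := by
  obtain ⟨g, n, hg0, hn, hdeg, hgo⟩ := exists_top (p := p) e hf
  set N := Fintype.card σ with hNdef
  set q := p ^ e with hq_def
  have hq : 0 < q := pow_pos (Fact.out (p := p.Prime)).pos _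
  have hn1 : q * (n / q) ≤ n := Nat.mul_div_le n q
  have hn2 : n < q * (n / q) + q := by
    have := Nat.lt_div_mul_add (a := n) hq
    rwa [mul_comm] at this
  have hs : n / q < N := by
    rw [Nat.div_lt_iff_lt_mul hq]
    calc n ≤ N * (q - 1) := hn
      _ < N * q := Nat.mul_lt_mul_of_pos_left (by omega) (by omega)
  have h1 := degree_add (p := p) S μ A hA (N - 1 - n / q) g hg0 (fun i => by
    apply hgo _ _ _ (hord i)
    have h4 : q * (μ i + (N - 1 - n / q)) + q * (n / q) = q * (μ i + (N - 1)) := by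
      rw [← mul_add]
      congr 1
      omega
    omega)
  have h5 : q * (A + (N - 1 - n / q)) ≤ q * g.totalDegree := Nat.mul_le_mul_left _ h1
  have h6 : q * (A + (N - 1 - n / q)) + q * (n / q) = q * (A + N - 1) := by
    rw [← mul_add]
    congr 1
    omega
  omega

/-- the Chudnovsky bound in characteristic `p`, affine form, weak hypothesis on the orders -/
theorem charp_all' {p : ℕ} [Fact p.Prime] [CharP k p] {ι : Type*} [Nonempty ι]
    (hN : 1 ≤ Fintype.card σ) (S : ι → σ → k) (μ : ι → ℕ) (A : ℕ)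
    (hA : ∀ g : MvPolynomial σ k, g ≠ 0 → (∀ i, OrdGE (S i) (μ i) g) → A ≤ g.totalDegree)
    (r : ℕ) {f : MvPolynomial σ k} (hf : f ≠ 0)
    (hord : ∀ i, OrdGE (S i) (r * (μ i + (Fintype.card σ - 1))) f) :
    r * (A + Fintype.card σ - 1) ≤ f.totalDegree := by
  rcases Nat.eq_zero_or_pos r with rfl | hr
  · simp
  by_contra hlt
  push Not at hlt
  set N := Fintype.card σ with hNdef
  set D := f.totalDegree with hD
  set e := r * D + 1 with he
  have hq : e < p ^ e := Nat.lt_pow_self (Fact.out (p := p.Prime)).one_lt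
  set q := p ^ e with hq_def
  set s := (q + r - 1) / r with hs
  have hs1 : q ≤ s * r := by
    have h1 := Nat.lt_div_mul_add (a := q + r - 1) hr
    rw [← hs] at h1
    omega
  have hs2 : s * r ≤ q + r - 1 := Nat.div_mul_le_self _ _
  have h1 := charp_q' (p := p) hN S μ A hA e (f := f ^ s) (pow_ne_zero _ hf) (fun i => by
    apply ((hord i).pow s).mono
    calc p ^ e * (μ i + (N - 1)) ≤ (s * r) * (μ i + (N - 1)) :=
          Nat.mul_le_mul_right _ hs1
      _ = s * (r * (μ i + (N - 1))) := by ring)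
  rw [totalDegree_pow_dom, ← hD] at h1
  -- q B ≤ s D
  have h2 : r * (q * (A + N - 1)) ≤ (q + r - 1) * D := by
    calc r * (q * (A + N - 1)) ≤ r * (s * D) := Nat.mul_le_mul_left _ h1
      _ = (s * r) * D := by ring
      _ ≤ (q + r - 1) * D := Nat.mul_le_mul_right _ hs2
  have h3 : q * (D + 1) ≤ q * (r * (A + N - 1)) := Nat.mul_le_mul_left _ hlt
  have h4 : q * (r * (A + N - 1)) = r * (q * (A + N - 1)) := by ring
  have h5 : (q + r - 1) * D ≤ (q + r) * D := Nat.mul_le_mul_right _ (by omega)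
  have h6 : q * (D + 1) = q * D + q := by ring
  have h7 : (q + r) * D = q * D + r * D := by ring
  omega

end

section

variable {k : Type*} [Field k] {n : ℕ}

/-- the Chudnovsky bound in characteristic `p`, projective form -/
theorem proj_charp' [IsAlgClosed k] {p : ℕ} [Fact p.Prime] [CharP k p] (hn : 1 ≤ n)
    {ι : Type*} [Finite ι] [Nonempty ι] (v : ι → Fin (n + 1) → k) (hv : ∀ i, v i ≠ 0)
    (μ : ι → ℕ) (A : ℕ)
    (hA : ∀ (d : ℕ) (G : MvPolynomial (Fin (n + 1)) k), G.IsHomogeneous d → G ≠ 0 →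
      (∀ i, G ∈ Iv (v i) ^ (μ i)) → A ≤ d)
    (r d : ℕ) {F : MvPolynomial (Fin (n + 1)) k} (hF : F.IsHomogeneous d) (h0 : F ≠ 0)
    (hord : ∀ i, F ∈ Iv (v i) ^ (r * (μ i + (n - 1)))) :
    r * (A + n - 1) ≤ d := by
  obtain ⟨c, hc⟩ := exists_generic v hv
  let w : ι → Fin (n + 1) → k := fun i l => (pt c (v i) 0)⁻¹ * pt c (v i) l
  have hw0 : ∀ i, w i 0 = 1 := fun i => inv_mul_cancel₀ (hc i)
  have hw1 : ∀ i, w i 0 ≠ 0 := fun i => by rw [hw0]; exact one_ne_zero
  have hIv : ∀ i, Iv (w i) = Iv (pt c (v i)) := fun i => Iv_smul (inv_ne_zero (hc i)) _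
  let S : ι → Fin n → k := fun i j => w i j.succ
  have key : ∀ (i : ι) (e M : ℕ) (G : MvPolynomial (Fin (n + 1)) k), G.IsHomogeneous e →
      (G ∈ Iv (w i) ^ M ↔ OrdGE (S i) M (dh k n G)) := by
    intro i e M G hG
    rw [mem_Iv_pow_iff_I (hw1 i) hG, ordGE_iff, phiI_eq _ (hw0 i)]
  have hN : 1 ≤ Fintype.card (Fin n) := by simpa using hn
  have hA' : ∀ g : MvPolynomial (Fin n) k, g ≠ 0 → (∀ i, OrdGE (S i) (μ i) g) →
      A ≤ g.totalDegree := by
    intro g hg0 hg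
    obtain ⟨G, hG, hGg⟩ := exists_homog (le_refl g.totalDegree)
    have hLG := Lc_hom (fun j => - c j) hG
    apply hA _ _ hLG
    · intro h
      have h1 := Lc_Lc (fun j => - c j) G
      rw [h, map_zero] at h1
      apply hg0
      rw [← hGg, ← h1, map_zero]
    · intro i
      have h1 := (key i _ (μ i) G hG).2 (by rw [hGg]; exact hg i)
      rw [hIv] at h1
      have h2 := Lc_mem (c := fun j => - c j) h1
      rwa [pt_pt] at h2
  have hLF := Lc_hom c hF
  have hf0 : dh k n (Lc c F) ≠ 0 := by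
    intro h
    obtain ⟨i⟩ := ‹Nonempty ι›
    have h1 : Lc c F = 0 := by
      apply phi_injOn_I (hw1 i) hLF
      rw [phiI_eq _ (hw0 i), h, map_zero]
    apply h0
    rw [← Lc_Lc c F, h1, map_zero]
  have h1 := charp_all' (p := p) hN S μ A hA' r hf0 (fun i => by
    rw [← key i d _ _ hLF, hIv, Fintype.card_fin]
    exact Lc_mem (hord i))
  rw [Fintype.card_fin] at h1
  exact h1.trans ((totalDegree_dh _).trans hLF.totalDegree_le)

end

section

universe u

/-- The Chudnovsky bound for fat points over an arbitrary field, with the weak hypothesis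
`r (μ_i + n - 1)` on the orders. -/
theorem chudnovsky_fat {k : Type u} [Field k] {n : ℕ} (hn : 1 ≤ n) {ι : Type*} [Finite ι]
    [Nonempty ι] (v : ι → Fin (n + 1) → k) (hv : ∀ i, v i ≠ 0) (μ : ι → ℕ) (A : ℕ)
    (hA : ∀ (d : ℕ) (G : MvPolynomial (Fin (n + 1)) k), G.IsHomogeneous d → G ≠ 0 →
      (∀ i, G ∈ Iv (v i) ^ μ i) → A ≤ d)
    (r d : ℕ) {F : MvPolynomial (Fin (n + 1)) k} (hF : F.IsHomogeneous d) (h0 : F ≠ 0)
    (hord : ∀ i, F ∈ Iv (v i) ^ (r * (μ i + (n - 1)))) :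
    r * (A + n - 1) ≤ d := by
  cases nonempty_fintype ι
  obtain ⟨K, hKf, hKa, p, hp, hcp, w, hw, hwA, F', hF', hF'0, hF'o⟩ :=
    transfer v hv (fun i => μ i) (fun i => r * (μ i + (n - 1))) A d
      (fun D hD G hG hGo => by
        by_contra hG0
        have := hA D G hG hG0 (fun i => (mem_Iv_iff_ordGE (hv i) hG).2 (hGo i))
        omega) hF h0 (fun i => (mem_Iv_iff_ordGE (hv i) hF).1 (hord i))
  have : Fact p.Prime := ⟨hp⟩
  exact proj_charp' (p := p) hn w hw μ A (fun D G hG hG0 hGo => by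
    by_contra hlt
    exact hG0 (hwA D (by omega) G hG (fun i => (mem_Iv_iff_ordGE (hw i) hG).1 (hGo i))))
    r d hF' hF'0 (fun i => (mem_Iv_iff_ordGE (hw i) hF').2 (hF'o i))

/-- ideal form: if `⋂ Iv (v i) ^ μ i ⊆ 𝔪^A`, then a form of degree `D` which vanishes to order at
least `r (μ i + n - 1)` at all `v i` with `μ i ≥ 1` is zero or has `r (A + n - 1) ≤ D` -/
theorem chudnovsky_ideal {k : Type u} [Field k] {n : ℕ} (hn : 1 ≤ n) {ι : Type*} [Finite ι]
    (v : ι → Fin (n + 1) → k) (hv : ∀ i, v i ≠ 0) (μ : ι → ℕ) (hμ : ∃ i, 1 ≤ μ i) (A : ℕ)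
    (hA : (⨅ i, Iv (v i) ^ μ i) ≤ idealOfVars (Fin (n + 1)) k ^ A) (r D : ℕ)
    {F : MvPolynomial (Fin (n + 1)) k} (hF : F.IsHomogeneous D) (hF0 : F ≠ 0)
    (hmem : ∀ i, 1 ≤ μ i → F ∈ Iv (v i) ^ (r * (μ i + n - 1))) : r * (A + n - 1) ≤ D := by
  obtain ⟨i₀, hi₀⟩ := hμ
  let ι' := {i : ι // 1 ≤ μ i}
  have : Nonempty ι' := ⟨⟨i₀, hi₀⟩⟩
  refine chudnovsky_fat hn (ι := ι') (fun i => v i.1) (fun i => hv i.1) (fun i => μ i.1) A ?_ r D
    hF hF0 (fun i => ?_)
  · intro d H hH hH0 hHmem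
    by_contra hlt
    push Not at hlt
    have h2 : H ∈ (⨅ i, Iv (v i) ^ μ i) := by
      rw [Ideal.mem_iInf]
      intro i
      rcases Nat.eq_zero_or_pos (μ i) with h | h
      · rw [h, pow_zero, Ideal.one_eq_top]
        trivial
      · exact hHmem ⟨i, h⟩
    have h3 := hA h2
    rw [mem_pow_idealOfVars_iff'] at h3
    obtain ⟨y, hy⟩ := MvPolynomial.ne_zero_iff.1 hH0
    have h4 : y.degree = d := by
      by_contra hne'
      exact hy (hH.coeff_eq_zero hne')
    exact hy (h3 y (by omega))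
  · have h1 := hmem i.1 i.2
    have h2 : μ i.1 + n - 1 = μ i.1 + (n - 1) := by omega
    rwa [h2] at h1

/-- fat points ideals generated in degrees `≤ ω` and contained in `𝔪^α` -/
theorem gap_gen {k : Type u} [Field k] {n : ℕ} (hn : 2 ≤ n) {ι : Type*} [Fintype ι]
    {v : ι → Fin (n + 1) → k} (hv : ∀ i, v i ≠ 0) {μ : ι → ℕ} (hμ : ∃ i, 1 ≤ μ i) {α ω : ℕ}
    (hα : (⨅ i, Iv (v i) ^ μ i) ≤ idealOfVars (Fin (n + 1)) k ^ α)
    (hω : (⨅ i, Iv (v i) ^ μ i) ≤ low (⨅ i, Iv (v i) ^ μ i) (ω + 1)) {r D : ℕ}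
    (hr : 1 ≤ r) {F : MvPolynomial (Fin (n + 1)) k} (hF : F.IsHomogeneous D)
    (hmem : ∀ i, 1 ≤ μ i → F ∈ Iv (v i) ^ (r * (μ i + n - 1))) :
    F ∈ idealOfVars (Fin (n + 1)) k ^ (r * (α + n - 1 - ω)) * (⨅ i, Iv (v i) ^ μ i) ^ r := by
  rcases eq_or_ne F 0 with rfl | hF0
  · exact Ideal.zero_mem _
  have h1 := Ideal.mul_le_right (gap_frac hn hv hμ hr hF hmem)
  have h2 := chudnovsky_ideal (by omega) v hv μ hμ α hα r D hF hF0 hmem
  rcases Nat.lt_or_ge (α + n - 1) ω with hlt | hle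
  · have h3 : α + n - 1 - ω = 0 := by omega
    rw [h3, mul_zero, pow_zero, one_mul]
    exact h1
  · refine mem_of_low_pow' (t := ω + 1) (by omega) ?_ hF (Ideal.pow_right_mono hω r h1)
    rw [Nat.add_sub_cancel]
    have h4 : r * (α + n - 1) = r * ω + r * (α + n - 1 - ω) := by
      rw [← mul_add]
      congr 1
      omega
    omega

end

end Pool.Agent.Lib.P5aaf1b
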