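import Mathlib
import Pool.Agent.Lib.Chud.Ideals

set_option autoImplicit false

namespace Pool.Agent.Lib.P5aaf1b

open MvPolynomial Pool.Agent.Lib.P5c592f Pool.Agent.Lib.Chud

/-- `I(P)`: the ideal of `k[x_0,…,x_n]` generated by all forms vanishing at the point `P`. -/
noncomputable def pointIdeal {k : Type*} [Field k] {n : ℕ}
    (P : Projectivization k (Fin (n + 1) → k)) : Ideal (MvPolynomial (Fin (n + 1)) k) :=
  Ideal.span {G | (∃ d : ℕ, G.IsHomogeneous d) ∧ MvPolynomial.eval P.rep G = 0}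

/-- The symbolic power `I^(ℓ)` of the fat points ideal `I = ⋂ I(P_i)^(m_i)`:
`I^(ℓ) = ⋂ I(P_i)^(ℓ m_i)`; for `ℓ = 1` it is `I`. -/
noncomputable def symb {k : Type*} [Field k] {n s : ℕ}
    (P : Fin s → Projectivization k (Fin (n + 1) → k)) (m : Fin s → ℕ) (ℓ : ℕ) :
    Ideal (MvPolynomial (Fin (n + 1)) k) :=
  ⨅ i, pointIdeal (P i) ^ (ℓ * m i)

/-- The irrelevant ideal `(x_0,…,x_n)`. -/
noncomputable def irr (k : Type*) [Field k] (n : ℕ) : Ideal (MvPolynomial (Fin (n + 1)) k) :=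
  Ideal.span (Set.range MvPolynomial.X)

theorem pointIdeal_eq {k : Type*} [Field k] {n : ℕ}
    (P : Projectivization k (Fin (n + 1) → k)) : pointIdeal P = Iv P.rep := by
  apply le_antisymm
  · rw [pointIdeal, Ideal.span_le]
    rintro G ⟨⟨d, hG⟩, h0⟩
    have h1 := (mem_Iv_pow_iff P.rep_nonzero hG (m := 1)).2
      (by have := (one_le_lord_phi_iff P.rep G).2 h0; simpa using this)
    simpa using h1
  · rw [Iv, Ideal.span_le]
    rintro G ⟨hG, h0⟩
    exact Ideal.subset_span ⟨⟨1, hG⟩, h0⟩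

theorem symb_eq {k : Type*} [Field k] {n s : ℕ}
    (P : Fin s → Projectivization k (Fin (n + 1) → k)) (m : Fin s → ℕ) (ℓ : ℕ) :
    symb P m ℓ = ⨅ i, Iv (P i).rep ^ (ℓ * m i) := by
  unfold symb
  simp_rw [pointIdeal_eq]

theorem irr_eq (k : Type*) [Field k] (n : ℕ) : irr k n = idealOfVars (Fin (n + 1)) k := rfl

end Pool.Agent.Lib.P5aaf1b
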