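import Mathlib
import Pool.Agent.Lib.P5aaf1b.Spread2

set_option autoImplicit false

namespace Pool.Agent.Lib.P5aaf1b

open MvPolynomial Pool.Agent.Lib.Chud Pool.Agent.Lib.P5c592f

universe u

/-- forms vanishing to order `r (μ_i + n - 1)` at fat points of `P^n` lie in `𝔪^r I^r`, in
characteristic zero or large compared with the degree -/
theorem gap_one {k : Type u} [Field k] {n : ℕ} (hn : 2 ≤ n) {ι : Type*} [Fintype ι]
    {v : ι → Fin (n + 1) → k} (hv : ∀ i, v i ≠ 0) {μ : ι → ℕ} (hμ : ∃ i, 1 ≤ μ i) {r D : ℕ}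
    (hr : 1 ≤ r) (hN : ((((2 * r - 1) * D).factorial : ℕ) : k) ≠ 0)
    {F : MvPolynomial (Fin (n + 1)) k} (hF : F.IsHomogeneous D)
    (hmem : ∀ i, 1 ≤ μ i → F ∈ Iv (v i) ^ (r * (μ i + n - 1))) :
    F ∈ idealOfVars (Fin (n + 1)) k ^ r * (⨅ i, Iv (v i) ^ μ i) ^ r := by
  by_contra hnot
  obtain ⟨K, hKf, hKa, p, hp, hcp, w, hpN, hw, F', hF', hord', hnot'⟩ :=
    transfer_HH v hv μ (fun i => if μ i = 0 then 0 else r * (μ i + n - 1)) r r D
      ((2 * r - 1) * D) hN hF (fun i => by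
        split_ifs with h
        · exact OrdGE.zero
        · exact (mem_Iv_iff_ordGE (hv i) hF).1 (hmem i (by omega))) hnot
  have : Fact p.Prime := ⟨hp⟩
  apply hnot'
  apply charp_main p hn hw hr D μ hμ F' hF' _ hpN
  intro i hi
  have h1 := hord' i
  rw [if_neg (by omega)] at h1
  exact (mem_Iv_iff_ordGE (hw i) hF').2 h1

end Pool.Agent.Lib.P5aaf1b
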