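import Mathlib
import Pool.Agent.Lib.P5aaf1b.Main0

set_option autoImplicit false

namespace Pool.Agent.Lib.P5aaf1b

open MvPolynomial Pool.Agent.Lib.Chud Pool.Agent.Lib.P5c592f

universe u

section

variable {k : Type u} [Field k] [CharZero k] {n : ℕ} {ι : Type*}

/-- Euler's formula: raising all positive multiplicities by one puts a factor `𝔪` in front -/
theorem euler_step {v : ι → Fin (n + 1) → k} (hv : ∀ i, v i ≠ 0) {μ : ι → ℕ}
    (hμ : ∃ i, 1 ≤ μ i) :
    (⨅ i, Iv (v i) ^ (if μ i = 0 then 0 else μ i + 1)) ≤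
      idealOfVars (Fin (n + 1)) k * ⨅ i, Iv (v i) ^ μ i := by
  obtain ⟨i₀, hi₀⟩ := hμ
  intro u hu
  rw [← sum_homogeneousComponent u]
  apply Ideal.sum_mem
  intro e _
  have hue := component_mem (isHomogeneous_fat v (fun i => if μ i = 0 then 0 else μ i + 1)) hu e
  have hhom := homogeneousComponent_isHomogeneous e u
  generalize homogeneousComponent e u = w at hue hhom
  by_cases hw0 : w = 0
  · rw [hw0]; exact Ideal.zero_mem _
  rw [Ideal.mem_iInf] at hue
  have he : 1 ≤ e := by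
    have h1 := hue i₀
    rw [if_neg (by omega)] at h1
    have h2 := (mem_Iv_pow_nord (hv i₀) hhom hw0).1 h1
    have h3 := nord_le (hv i₀) hhom hw0
    omega
  have hd : ∀ j, pderiv j w ∈ ⨅ i, Iv (v i) ^ μ i := by
    intro j
    rw [Ideal.mem_iInf]
    intro i
    rcases Nat.eq_zero_or_pos (μ i) with h | h
    · rw [h, pow_zero, Ideal.one_eq_top]
      trivial
    · apply pderiv_mem_pow
      have := hue i
      rwa [if_neg (by omega)] at this
  have h1 : (e : MvPolynomial (Fin (n + 1)) k) * w ∈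
      idealOfVars (Fin (n + 1)) k * ⨅ i, Iv (v i) ^ μ i := by
    rw [← nsmul_eq_mul, ← hhom.sum_X_mul_pderiv]
    apply Ideal.sum_mem
    intro j _
    exact Ideal.mul_mem_mul (Ideal.subset_span ⟨j, rfl⟩) (hd j)
  have hek : (e : k) ≠ 0 := by
    rw [Nat.cast_ne_zero]
    omega
  have h2 := Ideal.mul_mem_left _ (C (e : k)⁻¹) h1
  have h3 : (e : MvPolynomial (Fin (n + 1)) k) = C (e : k) := by simp
  rwa [h3, ← mul_assoc, ← C_mul, inv_mul_cancel₀ hek, C_1, one_mul] at h2

theorem euler_iter {v : ι → Fin (n + 1) → k} (hv : ∀ i, v i ≠ 0) {μ : ι → ℕ}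
    (hμ : ∃ i, 1 ≤ μ i) (t : ℕ) :
    (⨅ i, Iv (v i) ^ (if μ i = 0 then 0 else μ i + t)) ≤
      idealOfVars (Fin (n + 1)) k ^ t * ⨅ i, Iv (v i) ^ μ i := by
  induction t with
  | zero =>
    rw [pow_zero, one_mul]
    refine le_iInf fun i => (iInf_le _ i).trans ?_
    split_ifs with h
    · rw [h]
    · exact le_rfl
  | succ t ih =>
    have h1 := euler_step hv (μ := fun i => if μ i = 0 then 0 else μ i + t) (by
      obtain ⟨i, hi⟩ := hμ
      refine ⟨i, ?_⟩
      rw [if_neg (by omega)]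
      omega)
    have h2 : (⨅ i, Iv (v i) ^ (if μ i = 0 then 0 else μ i + (t + 1))) ≤
        ⨅ i, Iv (v i) ^ (if (if μ i = 0 then 0 else μ i + t) = 0 then 0 else
          (if μ i = 0 then 0 else μ i + t) + 1) := by
      refine le_iInf fun i => (iInf_le _ i).trans ?_
      by_cases h : μ i = 0
      · simp [h]
      · rw [if_neg h, if_neg h, if_neg (by omega)]
        exact le_rfl
    refine h2.trans (h1.trans ?_)
    rw [pow_succ', mul_assoc]
    exact Ideal.mul_mono le_rfl ih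

/-- forms vanishing to order `r (μ_i + t + n - 1)` at the fat points of `P^n` lie in
`𝔪^(r (t + 1)) I^r`, in characteristic zero -/
theorem gap_t (hn : 2 ≤ n) [Fintype ι] {v : ι → Fin (n + 1) → k} (hv : ∀ i, v i ≠ 0)
    {μ : ι → ℕ} (hμ : ∃ i, 1 ≤ μ i) {r : ℕ} (hr : 1 ≤ r) (t : ℕ)
    {F : MvPolynomial (Fin (n + 1)) k}
    (hmem : ∀ i, 1 ≤ μ i → F ∈ Iv (v i) ^ (r * (μ i + t + n - 1))) :
    F ∈ idealOfVars (Fin (n + 1)) k ^ (r * (t + 1)) * (⨅ i, Iv (v i) ^ μ i) ^ r := by
  rw [← sum_homogeneousComponent F]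
  apply Ideal.sum_mem
  intro D _
  have h1 := gap_one hn hv (μ := fun i => if μ i = 0 then 0 else μ i + t) (by
      obtain ⟨i, hi⟩ := hμ
      refine ⟨i, ?_⟩
      rw [if_neg (by omega)]
      omega) (r := r) (D := D) hr (Nat.cast_ne_zero.2 (Nat.factorial_ne_zero _))
      (homogeneousComponent_isHomogeneous D F) (by
        intro i hi
        split_ifs at hi with h
        · omega
        · rw [if_neg h]
          exact component_mem (isHomogeneous_pow (isHomogeneous_Iv _) _)
            (hmem i (by omega)) D)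
  have h2 : idealOfVars (Fin (n + 1)) k ^ r *
      (⨅ i, Iv (v i) ^ (if μ i = 0 then 0 else μ i + t)) ^ r ≤
      idealOfVars (Fin (n + 1)) k ^ (r * (t + 1)) * (⨅ i, Iv (v i) ^ μ i) ^ r := by
    have h3 := Ideal.pow_right_mono (euler_iter hv hμ t) r
    rw [mul_pow] at h3
    refine (Ideal.mul_mono le_rfl h3).trans ?_
    rw [← mul_assoc, ← pow_mul, ← pow_add]
    have : r + t * r = r * (t + 1) := by ring
    rw [this]
  exact h2 h1

end

end Pool.Agent.Lib.P5aaf1b
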